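import Pool.Agent.H48.MT.Targets

/-!
# MP_c80a4f_an: module AS2 (second order asymptotics at large scalars)
-/

open InnerProductSpace Filter Topology
open scoped ComplexConjugate

namespace Pool.Agent.H48.MT

private theorem as2_cfc {H : Type} [NormedAddCommGroup H] [InnerProductSpace ℂ H]
    [CompleteSpace H] (b ε : ℝ) (hε : 0 < ε) : ∃ δ : ℝ, 0 < δ ∧ ∀ Y : H →L[ℂ] H,
    IsSelfAdjoint Y → ‖Y‖ ≤ δ → ‖(1 + Y) ^ b - 1 - (b : ℂ) • Y‖ ≤ ε * ‖Y‖ := by
  have hd : HasDerivAt (fun t : ℝ => (1 + t) ^ b) b 0 := by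
    have h1 := (Real.hasDerivAt_rpow_const (x := (1 : ℝ) + 0) (p := b)
      (Or.inl (by norm_num))).comp 0 ((hasDerivAt_id (0 : ℝ)).const_add 1)
    simpa [Function.comp_def] using h1
  have h2 := (hasDerivAt_iff_isLittleO_nhds_zero.1 hd).def hε
  rw [Metric.eventually_nhds_iff] at h2
  obtain ⟨δ, hδ, h3⟩ := h2
  refine ⟨min (δ / 2) (1 / 2), by positivity, fun Y hY hn => ?_⟩
  have hn1 : ‖Y‖ ≤ δ / 2 := hn.trans (min_le_left _ _)
  have hn2 : ‖Y‖ ≤ 1 / 2 := hn.trans (min_le_right _ _)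
  have hsp : ∀ x ∈ spectrum ℝ Y, |x| ≤ ‖Y‖ := by
    intro x hx
    have h4 := spectrum.norm_le_norm_mul_of_mem hx
    have h5 : ‖(1 : H →L[ℂ] H)‖ ≤ 1 := ContinuousLinearMap.norm_id_le
    have h6 : ‖Y‖ * ‖(1 : H →L[ℂ] H)‖ ≤ ‖Y‖ * 1 := mul_le_mul_of_nonneg_left h5 (norm_nonneg _)
    rw [Real.norm_eq_abs] at h4
    linarith
  have hp : ∀ x ∈ spectrum ℝ Y, 0 < 1 + x := by
    intro x hx
    have h4 := abs_le.1 (hsp x hx)
    linarith [h4.1]
  have c1 : ContinuousOn (fun t : ℝ => 1 + t) (spectrum ℝ Y) := by fun_prop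
  have c2 : ContinuousOn (fun t : ℝ => (1 + t) ^ b) (spectrum ℝ Y) :=
    c1.rpow_const fun x hx => Or.inl (hp x hx).ne'
  have c3 : ContinuousOn (fun _ : ℝ => (1 : ℝ)) (spectrum ℝ Y) := by fun_prop
  have c4 : ContinuousOn (fun t : ℝ => b * t) (spectrum ℝ Y) := by fun_prop
  have e1 : 1 + Y = cfc (fun t : ℝ => 1 + t) Y := by
    rw [cfc_const_add (1 : ℝ) (fun t => t) Y (by fun_prop) hY, cfc_id' ℝ Y hY, map_one]
  have e2 : (1 + Y) ^ b = cfc (fun t : ℝ => (1 + t) ^ b) Y := by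
    rw [e1]
    exact CFC.cfc_rpow hp c1 hY
  have e3 : (1 : H →L[ℂ] H) = cfc (fun _ : ℝ => (1 : ℝ)) Y := (cfc_const_one ℝ Y hY).symm
  have e4 : (b : ℂ) • Y = cfc (fun t : ℝ => b * t) Y := by
    rw [cfc_const_mul_id b Y hY]
    ext x
    simp
  have e5 : (1 + Y) ^ b - 1 - (b : ℂ) • Y = cfc (fun t : ℝ => (1 + t) ^ b - 1 - b * t) Y := by
    have f1 := cfc_sub (fun t : ℝ => (1 + t) ^ b) (fun _ => 1) Y c2 c3
    have c5 : ContinuousOn (fun t : ℝ => (1 + t) ^ b - 1) (spectrum ℝ Y) := c2.sub c3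
    have f2 := cfc_sub (fun t : ℝ => (1 + t) ^ b - 1) (fun t => b * t) Y c5 c4
    rw [f2, f1, e2, e4, ← e3]
  rw [e5]
  refine norm_cfc_le (by positivity) fun x hx => ?_
  have h6 := h3 (y := x) (by
    rw [dist_zero_right, Real.norm_eq_abs]
    linarith [hsp x hx])
  rw [zero_add, add_zero, Real.one_rpow, smul_eq_mul, mul_comm x b] at h6
  refine h6.trans ?_
  exact mul_le_mul_of_nonneg_left (hsp x hx) hε.le

private theorem as2_inv : Tendsto (fun n : ℕ => ((n : ℂ))⁻¹) atTop (𝓝 0) :=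
  tendsto_inv₀_cobounded.comp tendsto_natCast_atTop_cobounded

private theorem as2_lim {H : Type} [NormedAddCommGroup H] [InnerProductSpace ℂ H]
    [CompleteSpace H] (b : ℝ) (Y : ℕ → H →L[ℂ] H) (Z : H →L[ℂ] H)
    (hs : ∀ n, IsSelfAdjoint (Y n)) (hY : Tendsto (fun n : ℕ => (n : ℂ) • Y n) atTop (𝓝 Z)) :
    Tendsto (fun n : ℕ => (n : ℂ) • ((1 + Y n) ^ b - 1)) atTop (𝓝 ((b : ℂ) • Z)) := by
  have hY0 : Tendsto Y atTop (𝓝 0) := by
    have h1 := as2_inv.smul hY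
    rw [zero_smul] at h1
    refine h1.congr' ?_
    filter_upwards [eventually_ne_atTop 0] with n hn
    rw [smul_smul, inv_mul_cancel₀ (by exact_mod_cast hn), one_smul]
  have hG : Tendsto (fun n : ℕ => (n : ℂ) • ((1 + Y n) ^ b - 1 - (b : ℂ) • Y n)) atTop (𝓝 0) := by
    rw [NormedAddGroup.tendsto_nhds_zero]
    intro ε hε
    have hC : 0 < ‖Z‖ + 1 := by positivity
    obtain ⟨δ, hδ, h1⟩ := as2_cfc (H := H) b (ε / (2 * (‖Z‖ + 1))) (by positivity)
    have h2 : ∀ᶠ n : ℕ in atTop, ‖(n : ℂ) • Y n‖ < ‖Z‖ + 1 :=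
      hY.norm.eventually_lt_const (lt_add_one _)
    have h3 : ∀ᶠ n : ℕ in atTop, ‖Y n‖ < δ := by
      have := hY0.norm
      rw [norm_zero] at this
      exact this.eventually_lt_const hδ
    filter_upwards [h2, h3] with n hn2 hn3
    have h4 := h1 (Y n) (hs n) hn3.le
    rw [norm_smul]
    rw [norm_smul] at hn2
    have h5 : ‖(n : ℂ)‖ * ‖(1 + Y n) ^ b - 1 - (b : ℂ) • Y n‖ ≤
        ‖(n : ℂ)‖ * (ε / (2 * (‖Z‖ + 1)) * ‖Y n‖) := mul_le_mul_of_nonneg_left h4 (norm_nonneg _)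
    have h6 : ‖(n : ℂ)‖ * (ε / (2 * (‖Z‖ + 1)) * ‖Y n‖) =
        ε / (2 * (‖Z‖ + 1)) * (‖(n : ℂ)‖ * ‖Y n‖) := by ring
    have h7 : ε / (2 * (‖Z‖ + 1)) * (‖(n : ℂ)‖ * ‖Y n‖) ≤ ε / (2 * (‖Z‖ + 1)) * (‖Z‖ + 1) :=
      mul_le_mul_of_nonneg_left hn2.le (by positivity)
    have h8 : ε / (2 * (‖Z‖ + 1)) * (‖Z‖ + 1) = ε / 2 := by field_simp
    linarith
  have h9 := hG.add (hY.const_smul (b : ℂ))
  rw [zero_add] at h9
  refine h9.congr fun n => ?_
  rw [smul_comm (b : ℂ) (n : ℂ), ← smul_add, sub_add_cancel]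

private theorem as2_al {H : Type} [NormedAddCommGroup H] [InnerProductSpace ℂ H]
    [CompleteSpace H] (hPT3 : T_PT3) (hPT8 : T_PT8) (hLAM : T_LAM) (a : ℝ) (h0 : 0 ≤ a)
    (h1 : a ≤ 1) (S : ℕ → H →L[ℂ] H) (T : H →L[ℂ] H) (hS : Tendsto S atTop (𝓝 T)) :
    Tendsto (fun n : ℕ => (n : ℂ) • (al a ((n : ℂ) • 1 + S n) - (n : ℂ) • 1 - S n)) atTop
      (𝓝 (((a / 2 : ℝ) : ℂ) • (star T * T - T * star T))) := by
  set Y : ℕ → H →L[ℂ] H := fun n => (n : ℂ)⁻¹ • (S n + star (S n)) +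
    ((n : ℂ)⁻¹) ^ 2 • (star (S n) * S n) with hYdef
  have hconj : ∀ n : ℕ, star ((n : ℂ)⁻¹) = (n : ℂ)⁻¹ := by
    intro n
    rw [star_inv₀]
    simp
  have hYs : ∀ n, IsSelfAdjoint (Y n) := by
    intro n
    rw [hYdef]
    unfold IsSelfAdjoint
    rw [star_add, star_smul, star_smul, star_pow, hconj, star_add, star_star, star_mul, star_star,
      add_comm (star (S n))]
  have hSs : Tendsto (fun n => star (S n)) atTop (𝓝 (star T)) := (continuous_star.tendsto T).comp hS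
  have hY : Tendsto (fun n : ℕ => (n : ℂ) • Y n) atTop (𝓝 (T + star T)) := by
    have h2 := (hS.add hSs).add (as2_inv.smul (hSs.mul hS))
    rw [zero_smul, add_zero] at h2
    refine h2.congr' ?_
    filter_upwards [eventually_ne_atTop 0] with n hn
    have hn' : (n : ℂ) ≠ 0 := by exact_mod_cast hn
    rw [hYdef]
    simp only
    rw [smul_add, smul_smul, smul_smul, mul_inv_cancel₀ hn', one_smul, pow_two, ← mul_assoc,
      mul_inv_cancel₀ hn', one_mul]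
  have hA := as2_lim (a / 2) Y (T + star T) hYs hY
  have hB := as2_lim (-a / 2) Y (T + star T) hYs hY
  have hB1 : Tendsto (fun n => (1 + Y n) ^ (-a / 2)) atTop (𝓝 1) := by
    have h2 := (as2_inv.smul hB).add_const (1 : H →L[ℂ] H)
    rw [zero_smul, zero_add] at h2
    refine h2.congr' ?_
    filter_upwards [eventually_ne_atTop 0] with n hn
    rw [smul_smul, inv_mul_cancel₀ (by exact_mod_cast hn), one_smul, sub_add_cancel]
  have hlim := ((hA.mul hS).mul hB1).add (hS.mul hB)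
  have hval : ((a / 2 : ℝ) : ℂ) • (T + star T) * T * 1 + T * (((-a / 2 : ℝ) : ℂ) • (T + star T)) =
      ((a / 2 : ℝ) : ℂ) • (star T * T - T * star T) := by
    have h2 : ((-a / 2 : ℝ) : ℂ) = -((a / 2 : ℝ) : ℂ) := by push_cast; ring
    rw [h2, mul_one, smul_mul_assoc, mul_smul_comm, neg_smul, ← sub_eq_add_neg, ← smul_sub]
    congr 1
    rw [add_mul, mul_add]
    abel
  rw [hval] at hlim
  refine hlim.congr' ?_
  have hsmall : ∀ᶠ n : ℕ in atTop, ‖(n : ℂ)⁻¹ • S n‖ < 1 := by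
    have h2 := (as2_inv.smul hS).norm
    rw [zero_smul, norm_zero] at h2
    exact h2.eventually_lt_const one_pos
  filter_upwards [eventually_ne_atTop 0, hsmall] with n hn hlt
  have hn' : (n : ℂ) ≠ 0 := by exact_mod_cast hn
  set X := 1 + (n : ℂ)⁻¹ • S n with hX
  have hXu : IsUnit X := by
    have h2 := isUnit_one_sub_of_norm_lt_one (x := -((n : ℂ)⁻¹ • S n)) (by rwa [norm_neg])
    rwa [sub_neg_eq_add] at h2
  obtain ⟨u1, u2, u3, u4⟩ := hPT8 H X hXu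
  obtain ⟨v1, v2, v3, v4, v5, v6⟩ := hPT3 H (CFC.abs X) (CFC.abs_nonneg X) u1
  have hXX : 1 + Y n = CFC.abs X ^ (2 : ℝ) := by
    have h2 : CFC.abs X ^ (2 : ℝ) = CFC.abs X * CFC.abs X := by
      have h3 := v1 1 1
      rw [CFC.rpow_one _ (CFC.abs_nonneg X)] at h3
      rw [h3]
      norm_num
    rw [h2, CFC.abs_mul_abs, hX, hYdef, star_add, star_one, star_smul, hconj, add_mul, mul_add,
      mul_add, one_mul, one_mul, mul_one, smul_mul_smul_comm]
    simp only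
    rw [smul_add, pow_two]
    abel
  have hAn : (1 + Y n) ^ (a / 2) = CFC.abs X ^ a := by
    rw [hXX, v2]
    congr 1
    ring
  have hBn : (1 + Y n) ^ (-a / 2) = CFC.abs X ^ (-a) := by
    rw [hXX, v2]
    congr 1
    ring
  have hAB : CFC.abs X ^ a * CFC.abs X ^ (-a) = 1 := by
    rw [v1, add_neg_cancel, CFC.rpow_zero _ (CFC.abs_nonneg X)]
  have hnX : (n : ℂ) • (1 : H →L[ℂ] H) + S n = (n : ℂ) • X := by
    rw [hX, smul_add, smul_smul, mul_inv_cancel₀ hn', one_smul]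
  rw [hnX, ((hLAM H).2.2 a h0 h1).1, u4 a, hAn, hBn]
  have e1 : (n : ℂ) • (CFC.abs X ^ a * X * CFC.abs X ^ (-a)) =
      (n : ℂ) • 1 + CFC.abs X ^ a * S n * CFC.abs X ^ (-a) := by
    have e2 : (n : ℂ) • (CFC.abs X ^ a * X * CFC.abs X ^ (-a)) =
        CFC.abs X ^ a * ((n : ℂ) • X) * CFC.abs X ^ (-a) := by
      rw [mul_smul_comm, smul_mul_assoc]
    rw [e2, ← hnX, mul_add, add_mul, mul_smul_comm, smul_mul_assoc, mul_one, hAB]
  rw [e1, add_sub_cancel_left, smul_mul_assoc, smul_mul_assoc, mul_smul_comm, ← smul_add]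
  congr 1
  calc (CFC.abs X ^ a - 1) * S n * CFC.abs X ^ (-a) + S n * (CFC.abs X ^ (-a) - 1)
      = CFC.abs X ^ a * S n * CFC.abs X ^ (-a) - S n * CFC.abs X ^ (-a) +
        (S n * CFC.abs X ^ (-a) - S n) := by
        rw [sub_mul, sub_mul, one_mul, mul_sub, mul_one]
    _ = _ := by abel

private theorem as2_mm {H : Type} [NormedAddCommGroup H] [InnerProductSpace ℂ H]
    [CompleteSpace H] (hPT3 : T_PT3) (hPT8 : T_PT8) (hLAM : T_LAM) (l : ℝ) (h0 : 0 ≤ l)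
    (h1 : l ≤ 1 / 2) (S : ℕ → H →L[ℂ] H) (T : H →L[ℂ] H) (hS : Tendsto S atTop (𝓝 T)) :
    Tendsto (fun n : ℕ => (n : ℂ) • (mm l ((n : ℂ) • 1 + S n) - (n : ℂ) • 1 - S n)) atTop
      (𝓝 ((1 / 4 : ℂ) • (star T * T - T * star T))) := by
  have h2 := ((as2_al hPT3 hPT8 hLAM l h0 (by linarith) S T hS).add
    (as2_al hPT3 hPT8 hLAM (1 - l) (by linarith) (by linarith) S T hS)).const_smul ((2 : ℂ)⁻¹)
  have hval : (2 : ℂ)⁻¹ • (((l / 2 : ℝ) : ℂ) • (star T * T - T * star T) +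
      (((1 - l) / 2 : ℝ) : ℂ) • (star T * T - T * star T)) =
      (1 / 4 : ℂ) • (star T * T - T * star T) := by
    rw [← add_smul, smul_smul]
    congr 1
    push_cast
    ring
  rw [hval] at h2
  refine h2.congr fun n => ?_
  unfold mm
  rw [← smul_add, smul_comm]
  congr 1
  set Z : H →L[ℂ] H := (n : ℂ) • (1 : H →L[ℂ] H) + S n with hZ
  have h3 : Z = (2 : ℂ)⁻¹ • (Z + Z) := by
    rw [← two_smul ℂ Z, smul_smul]
    norm_num
  have h4 : ∀ U : H →L[ℂ] H, U - (n : ℂ) • 1 - S n = U - Z := fun U => by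
    rw [hZ, sub_sub]
  rw [h4, h4, h4]
  calc (2 : ℂ)⁻¹ • (al l Z - Z + (al (1 - l) Z - Z))
      = (2 : ℂ)⁻¹ • (al l Z + al (1 - l) Z) - (2 : ℂ)⁻¹ • (Z + Z) := by
        rw [← smul_sub]
        congr 1
        abel
    _ = _ := by rw [← h3]

theorem as2_proof (hPT3 : T_PT3) (hPT8 : T_PT8) (hLAM : T_LAM) (hBAS : T_BAS) : T_AS2 := by
  intro H _ _ _ L hL
  -- it is enough to treat `e = 1`
  have key : ∃ k : ℂ, k ≠ 0 ∧ ∀ T : H →L[ℂ] H,
      Tendsto (fun n : ℕ => (n : ℂ) • (L ((n : ℂ) • 1 + T) - (n : ℂ) • 1 - T))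
        atTop (𝓝 (k • (star T * T - T * star T))) := by
    rcases hL with rfl | ⟨l, h0, h1, rfl⟩
    · refine ⟨1 / 2, by norm_num, fun T => ?_⟩
      set S : ℕ → H →L[ℂ] H := fun n => al (1 / 2) ((n : ℂ) • 1 + T) - (n : ℂ) • 1 with hSdef
      have h2 := as2_al hPT3 hPT8 hLAM (1 / 2) (by norm_num) (by norm_num) (fun _ => T) T
        tendsto_const_nhds
      have hS : Tendsto S atTop (𝓝 T) := by
        have h3 := (as2_inv.smul h2).add_const T
        rw [zero_smul, zero_add] at h3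
        refine h3.congr' ?_
        filter_upwards [eventually_ne_atTop 0] with n hn
        rw [smul_smul, inv_mul_cancel₀ (by exact_mod_cast hn), one_smul, sub_add_cancel]
      have h4 := as2_mm hPT3 hPT8 hLAM 0 le_rfl (by norm_num) S T hS
      have h5 := h4.add h2
      have hval : (1 / 4 : ℂ) • (star T * T - T * star T) +
          ((1 / 2 / 2 : ℝ) : ℂ) • (star T * T - T * star T) =
          (1 / 2 : ℂ) • (star T * T - T * star T) := by
        rw [← add_smul]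
        congr 1
        push_cast
        ring
      rw [hval] at h5
      refine h5.congr fun n => ?_
      rw [(hLAM H).2.1, ← smul_add]
      congr 1
      unfold dh
      have h6 : (n : ℂ) • (1 : H →L[ℂ] H) + S n = al (1 / 2) ((n : ℂ) • 1 + T) := by
        rw [hSdef]
        simp only
        abel
      rw [h6, hSdef]
      simp only
      abel
    · exact ⟨1 / 4, by norm_num, fun T =>
        as2_mm hPT3 hPT8 hLAM l h0 h1 (fun _ => T) T tendsto_const_nhds⟩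
  obtain ⟨k, hk, hkey⟩ := key
  refine ⟨k, hk, fun e T he => ?_⟩
  have h2 := (hkey (e⁻¹ • T)).const_smul e
  have hval : e • k • (star (e⁻¹ • T) * (e⁻¹ • T) - (e⁻¹ • T) * star (e⁻¹ • T)) =
      (k / conj e) • (star T * T - T * star T) := by
    have he' : conj e ≠ 0 := by
      rw [Ne, map_eq_zero]
      exact he
    rw [star_smul, star_inv₀]
    have : star e = conj e := rfl
    rw [this, smul_mul_smul_comm, smul_mul_smul_comm, mul_comm (e⁻¹) (conj e)⁻¹, ← smul_sub,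
      smul_smul, smul_smul]
    congr 1
    field_simp
  rw [hval] at h2
  refine h2.congr fun n => ?_
  rw [smul_comm e (n : ℂ)]
  congr 1
  have h3 : (n : ℂ) • e • (1 : H →L[ℂ] H) + T = e • ((n : ℂ) • 1 + e⁻¹ • T) := by
    rw [smul_add, smul_smul e e⁻¹, mul_inv_cancel₀ he, one_smul, smul_comm]
  rw [h3, (hBAS H L hL).1, smul_sub, smul_sub, smul_smul e e⁻¹, mul_inv_cancel₀ he, one_smul,
    smul_comm e (n : ℂ)]

end Pool.Agent.H48.MT
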