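import Pool.Agent.H48.MT.Targets

/-!
# MP_c80a4f_an: modules LAM, BAS (simple facts about the lambda-Aluthge transforms)
-/

open InnerProductSpace Filter Topology
open scoped ComplexConjugate

namespace Pool.Agent.H48.MT

private theorem lam_comm {H : Type} [NormedAddCommGroup H] [InnerProductSpace ℂ H]
    [CompleteSpace H] (hPT1 : T_PT1) (T : H →L[ℂ] H) (hc : Commute (CFC.abs T) T) :
    Commute (CFC.abs T) (pol T) := by
  obtain ⟨p1, p2, p3, p4, p5, p6, p7, p8, p9, p10, p11, p12, p13, p14, p15⟩ := hPT1 H T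
  have a1 : (CFC.abs T * pol T - pol T * CFC.abs T) * CFC.abs T = 0 := by
    rw [sub_mul, mul_assoc, ← p1, hc.eq, sub_self]
  have a2 := p15 _ a1
  have a3 : (CFC.abs T * pol T - pol T * CFC.abs T) * (star (pol T) * pol T) = 0 := by
    rw [← mul_assoc, a2, zero_mul]
  rw [sub_mul, mul_assoc, ← mul_assoc (pol T), p3, mul_assoc, p7, sub_eq_zero] at a3
  exact a3

private theorem lam_smul {H : Type} [NormedAddCommGroup H] [InnerProductSpace ℂ H]
    [CompleteSpace H] (hPT1 : T_PT1) (hPT2 : T_PT2) (hPT4 : T_PT4) {a : ℝ} (h0 : 0 ≤ a)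
    (h1 : a ≤ 1) (c : ℂ) (T : H →L[ℂ] H) : al a (c • T) = c • al a T := by
  by_cases hc : c = 0
  · have : pol (0 : H →L[ℂ] H) = 0 := by
      ext x
      exact ((hPT1 H 0).2.2.2.2.2.2.2.1 x).2 rfl
    rw [hc, zero_smul, zero_smul]
    unfold al
    rw [this, mul_zero, zero_mul]
  · obtain ⟨p1, p2, p3, p4, p5, p6, p7, p8, p9, p10, p11, p12, p13, p14, p15⟩ := hPT1 H T
    have hr : (‖c‖ : ℂ) ≠ 0 := by
      rw [Ne, Complex.ofReal_eq_zero, norm_eq_zero]
      exact hc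
    have hr0 : 0 < ‖c‖ := norm_pos_iff.2 hc
    have hu : conj (c / (‖c‖ : ℂ)) * (c / (‖c‖ : ℂ)) = 1 := by
      rw [map_div₀, Complex.conj_ofReal, div_mul_div_comm, mul_comm (conj c), Complex.mul_conj,
        Complex.normSq_eq_norm_sq]
      push_cast
      field_simp
    have hpos : ∀ P : H →L[ℂ] H, 0 ≤ P → 0 ≤ (‖c‖ : ℂ) • P := by
      intro P hP
      have h2 : (‖c‖ : ℂ) • P = ‖c‖ • P := by
        ext x
        simp
      rw [h2]
      exact smul_nonneg (norm_nonneg _) hP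
    have h := hPT4 H (c • T) ((c / (‖c‖ : ℂ)) • pol T) ((‖c‖ : ℂ) • CFC.abs T)
      (hpos _ (CFC.abs_nonneg T)) ?_ ?_ ?_ ?_
    · unfold al
      rw [← h.1, ← h.2]
      have q := (hPT2 H (CFC.abs T) (CFC.abs_nonneg T)).2.2.2.2.2.2.2.2.2.2
      rw [q ‖c‖ a hr0.le h0, q ‖c‖ (1 - a) hr0.le (by linarith)]
      simp only [smul_mul_assoc, mul_smul_comm, smul_smul]
      congr 1
      have e1 : (‖c‖ : ℝ) ^ a * ‖c‖ ^ (1 - a) = ‖c‖ := by
        rw [← Real.rpow_add hr0]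
        simp
      have e2 : (((‖c‖ : ℝ) ^ a * ‖c‖ ^ (1 - a) : ℝ) : ℂ) = ‖c‖ := by rw [e1]
      push_cast at e2
      have e3 : ((‖c‖ ^ (1 - a) : ℝ) : ℂ) * (((‖c‖ ^ a : ℝ) : ℂ) * (c / (‖c‖ : ℂ))) =
          (((‖c‖ ^ a : ℝ) : ℂ) * ((‖c‖ ^ (1 - a) : ℝ) : ℂ)) * (c / (‖c‖ : ℂ)) := by ring
      rw [← Complex.ofReal_mul, e1] at e3
      rw [show ((‖c‖ ^ (1 - a) : ℝ) : ℂ) * ((c / (‖c‖ : ℂ)) * ((‖c‖ ^ a : ℝ) : ℂ)) =
        ((‖c‖ ^ (1 - a) : ℝ) : ℂ) * (((‖c‖ ^ a : ℝ) : ℂ) * (c / (‖c‖ : ℂ))) by ring, e3]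
      field_simp
    · rw [smul_mul_assoc, mul_smul_comm, smul_smul, ← p1, div_mul_cancel₀ _ hr]
    · rw [star_smul]
      simp only [smul_mul_assoc, mul_smul_comm, smul_smul]
      rw [p3]
      congr 1
      have : star (c / (‖c‖ : ℂ)) = conj (c / (‖c‖ : ℂ)) := rfl
      rw [this]
      rw [hu, mul_one]
    · rw [star_smul]
      simp only [smul_mul_assoc, mul_smul_comm, smul_smul]
      rw [p6]
      congr 1
      have : star (c / (‖c‖ : ℂ)) = conj (c / (‖c‖ : ℂ)) := rfl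
      rw [this]
      linear_combination (‖c‖ : ℂ) * hu
    · intro x hx
      rw [smul_apply, smul_eq_zero] at hx ⊢
      right
      rcases hx with hx | hx
      · exact absurd hx hr
      · exact (p8 _).2 ((p9 _).1 hx)

theorem lam_proof (hPT1 : T_PT1) (hPT2 : T_PT2) (hPT4 : T_PT4) (hPT5 : T_PT5) (hPT6 : T_PT6) :
    T_LAM := by
  intro H _ _ _
  have al0 : ∀ T : H →L[ℂ] H, al 0 T = T := by
    intro T
    unfold al
    rw [(hPT2 H _ (CFC.abs_nonneg T)).1, sub_zero, (hPT2 H _ (CFC.abs_nonneg T)).2.1, one_mul]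
    exact ((hPT1 H T).1).symm
  have al1 : ∀ T : H →L[ℂ] H, al 1 T = CFC.abs T * pol T := by
    intro T
    unfold al
    rw [sub_self, (hPT2 H _ (CFC.abs_nonneg T)).1, (hPT2 H _ (CFC.abs_nonneg T)).2.1, mul_one]
  refine ⟨fun T => ⟨al0 T, al1 T⟩, ?_, fun a h0 h1 => ⟨fun c T => ?_, fun T hT => ?_, fun T => ?_,
    fun W T => ?_, fun E T hE hc => ?_⟩⟩
  · funext T
    unfold mm mean
    rw [al0, sub_zero, al1]
  · exact lam_smul hPT1 hPT2 hPT4 h0 h1 c T
  · have hc := lam_comm hPT1 T (CFC.commute_abs_self T hT)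
    have h2 := (hPT2 H (CFC.abs T) (CFC.abs_nonneg T)).2.2.2.2.2.2.2.2.1 a _ hc
    rcases h0.eq_or_lt with h0 | h0
    · rw [← h0, al0]
    · rcases h1.eq_or_lt with h1 | h1
      · rw [h1, al1, hc.eq]
        exact ((hPT1 H T).1).symm
      · unfold al
        rw [h2.eq, mul_assoc, (hPT2 H _ (CFC.abs_nonneg T)).2.2.2.1 a (1 - a) h0 (by linarith),
          add_sub_cancel, (hPT2 H _ (CFC.abs_nonneg T)).2.1]
        exact ((hPT1 H T).1).symm
  · obtain ⟨p1, p2, p3, p4, p5, p6, p7, p8, p9, p10, p11, p12, p13, p14, p15⟩ := hPT1 H T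
    have n1 := (hPT2 H _ (CFC.abs_nonneg T)).2.2.2.2.2.2.2.1 a h0
    have n2 := (hPT2 H _ (CFC.abs_nonneg T)).2.2.2.2.2.2.2.1 (1 - a) (by linarith)
    unfold al
    calc ‖CFC.abs T ^ a * pol T * CFC.abs T ^ (1 - a)‖
        ≤ ‖CFC.abs T ^ a‖ * ‖pol T‖ * ‖CFC.abs T ^ (1 - a)‖ :=
          (norm_mul_le _ _).trans (mul_le_mul_of_nonneg_right (norm_mul_le _ _) (norm_nonneg _))
      _ ≤ ‖CFC.abs T‖ ^ a * 1 * ‖CFC.abs T‖ ^ (1 - a) := by
          refine mul_le_mul (mul_le_mul n1 p12 (norm_nonneg _) ?_) n2 (norm_nonneg _) ?_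
          · exact Real.rpow_nonneg (norm_nonneg _) _
          · rw [mul_one]
            exact Real.rpow_nonneg (norm_nonneg _) _
      _ = ‖T‖ := by
          rw [mul_one, ← Real.rpow_add_of_nonneg (norm_nonneg _) h0 (by linarith), p13]
          simp
  · unfold al
    obtain ⟨q1, q2⟩ := hPT5 H W
    rw [(q2 T).1, (q2 T).2, (q1 _ a (CFC.abs_nonneg T) h0).2,
      (q1 _ (1 - a) (CFC.abs_nonneg T) (by linarith)).2, cj_mul, cj_mul]
  · obtain ⟨q1, q2⟩ := hPT6 H E hE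
    obtain ⟨r1, r2, r3, r4⟩ := q2 T hc
    have hEE : E * E = E := hE.isIdempotentElem
    rcases h0.eq_or_lt with h0 | h0
    · rw [← h0, al0, al0]
      exact ⟨rfl, hc⟩
    · rcases h1.eq_or_lt with h1 | h1
      · rw [h1, al1, al1, r3, r4]
        refine ⟨?_, r1.mul_left r2⟩
        calc CFC.abs T * E * (pol T * E) = CFC.abs T * (E * pol T) * E := by simp only [mul_assoc]
          _ = CFC.abs T * (pol T * E) * E := by rw [r2.eq]
          _ = CFC.abs T * pol T * (E * E) := by simp only [mul_assoc]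
          _ = _ := by rw [hEE]
      · obtain ⟨s1, s2⟩ := q1 (CFC.abs T) a (CFC.abs_nonneg T) r1 h0
        obtain ⟨s3, s4⟩ := q1 (CFC.abs T) (1 - a) (CFC.abs_nonneg T) r1 (by linarith)
        unfold al
        rw [r3, r4, s1, s3]
        refine ⟨?_, (s2.mul_left r2).mul_left s4⟩
        calc CFC.abs T ^ a * E * (pol T * E) * (CFC.abs T ^ (1 - a) * E)
            = CFC.abs T ^ a * (E * pol T) * (E * CFC.abs T ^ (1 - a)) * E := by
              simp only [mul_assoc]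
          _ = CFC.abs T ^ a * (pol T * E) * (CFC.abs T ^ (1 - a) * E) * E := by
              rw [r2.eq, s4.eq]
          _ = CFC.abs T ^ a * pol T * (E * CFC.abs T ^ (1 - a)) * (E * E) := by
              simp only [mul_assoc]
          _ = CFC.abs T ^ a * pol T * (CFC.abs T ^ (1 - a) * E) * E := by rw [← s4.eq, hEE]
          _ = CFC.abs T ^ a * pol T * CFC.abs T ^ (1 - a) * (E * E) := by simp only [mul_assoc]
          _ = _ := by rw [hEE]

/-- the five properties of `T_BAS` -/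
private structure BasP {H : Type} [NormedAddCommGroup H] [InnerProductSpace ℂ H]
    [CompleteSpace H] (L : (H →L[ℂ] H) → H →L[ℂ] H) : Prop where
  h1 : ∀ (c : ℂ) T, L (c • T) = c • L T
  h2 : ∀ (W : UA H) T, L (cj W T) = cj W (L T)
  h3 : ∀ T, IsStarNormal T → L T = T
  h4 : ∀ E T : H →L[ℂ] H, IsStarProjection E → E * T = T * E →
    L (T * E) = L T * E ∧ E * L T = L T * E
  h5 : ∀ T, ‖L T‖ ≤ ‖T‖

private theorem bas_al (hLAM : T_LAM) {H : Type} [NormedAddCommGroup H] [InnerProductSpace ℂ H]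
    [CompleteSpace H] (a : ℝ) (h0 : 0 ≤ a) (h1 : a ≤ 1) : BasP (al a : (H →L[ℂ] H) → _) := by
  obtain ⟨q1, q2, q3, q4, q5⟩ := (hLAM H).2.2 a h0 h1
  refine ⟨q1, q4, q2, fun E T hE hc => ?_, q3⟩
  have h2 := q5 E T hE hc.symm
  exact ⟨h2.1, h2.2.eq.symm⟩

private theorem bas_avg {H : Type} [NormedAddCommGroup H] [InnerProductSpace ℂ H]
    [CompleteSpace H] {L M : (H →L[ℂ] H) → H →L[ℂ] H} (hL : BasP L) (hM : BasP M) :
    BasP (fun T => (2 : ℂ)⁻¹ • (L T + M T)) := by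
  refine ⟨fun c T => ?_, fun W T => ?_, fun T hT => ?_, fun E T hE hc => ⟨?_, ?_⟩, fun T => ?_⟩
  · rw [hL.h1, hM.h1, ← smul_add, smul_comm]
  · rw [hL.h2, hM.h2, ← cj_add, cj_smul]
    congr 1
    have := W.s_real (2⁻¹ : ℝ)
    push_cast at this
    exact this.symm
  · rw [hL.h3 T hT, hM.h3 T hT, ← two_smul ℂ T, smul_smul]
    norm_num
  · rw [(hL.h4 E T hE hc).1, (hM.h4 E T hE hc).1, smul_mul_assoc, add_mul]
  · rw [smul_mul_assoc, add_mul, ← (hL.h4 E T hE hc).2, ← (hM.h4 E T hE hc).2, mul_smul_comm,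
      mul_add]
  · have n1 := norm_add_le (L T) (M T)
    have n2 := hL.h5 T
    have n3 := hM.h5 T
    rw [norm_smul]
    have : ‖(2 : ℂ)⁻¹‖ = 1 / 2 := by norm_num
    rw [this]
    linarith

private theorem bas_comp {H : Type} [NormedAddCommGroup H] [InnerProductSpace ℂ H]
    [CompleteSpace H] {L M : (H →L[ℂ] H) → H →L[ℂ] H} (hL : BasP L) (hM : BasP M) :
    BasP (fun T => L (M T)) := by
  refine ⟨fun c T => ?_, fun W T => ?_, fun T hT => ?_, fun E T hE hc => ⟨?_, ?_⟩, fun T => ?_⟩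
  · rw [hM.h1, hL.h1]
  · rw [hM.h2, hL.h2]
  · rw [hM.h3 T hT, hL.h3 T hT]
  · rw [(hM.h4 E T hE hc).1, (hL.h4 E _ hE (hM.h4 E T hE hc).2).1]
  · exact (hL.h4 E _ hE (hM.h4 E T hE hc).2).2
  · exact (hL.h5 _).trans (hM.h5 T)

theorem bas_proof (hLAM : T_LAM) : T_BAS := by
  intro H _ _ _ L hL
  have hmm : ∀ l : ℝ, 0 ≤ l → l ≤ 1 / 2 → BasP (mm l : (H →L[ℂ] H) → _) := fun l h0 h1 =>
    bas_avg (bas_al hLAM l h0 (by linarith)) (bas_al hLAM (1 - l) (by linarith) (by linarith))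
  have key : BasP L := by
    rcases hL with rfl | ⟨l, h0, h1, rfl⟩
    · have h2 : BasP (mean : (H →L[ℂ] H) → _) := by
        rw [← (hLAM H).2.1]
        exact hmm 0 le_rfl (by norm_num)
      change BasP (fun T => mean (al (1 / 2) T))
      exact bas_comp h2 (bas_al hLAM (1 / 2) (by norm_num) (by norm_num))
    · exact hmm l h0 h1
  exact ⟨key.h1, key.h2, key.h3, key.h4, key.h5⟩

end Pool.Agent.H48.MT
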