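import Pool.Agent.H48.MT.Targets

/-!
# MP_c80a4f_an: module PT5 (covariance of powers, absolute values and polar parts)
-/

open InnerProductSpace Filter Topology
open scoped ComplexConjugate

namespace Pool.Agent.H48.MT

/-- conjugation by a unitary or antiunitary map as a homomorphism of real star algebras -/
private noncomputable def pt5Hom {H : Type} [NormedAddCommGroup H] [InnerProductSpace ℂ H]
    [CompleteSpace H] (W : UA H) : (H →L[ℂ] H) →⋆ₐ[ℝ] (H →L[ℂ] H) where
  toFun := cj W
  map_one' := cj_one W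
  map_mul' := cj_mul W
  map_zero' := cj_zero W
  map_add' := cj_add W
  commutes' r := by
    have h : ∀ r : ℝ, algebraMap ℝ (H →L[ℂ] H) r = (r : ℂ) • (1 : H →L[ℂ] H) := by
      intro r
      rw [Algebra.algebraMap_eq_smul_one]
      ext x
      simp
    rw [h, cj_smul, cj_one, W.s_real]
  map_star' := cj_star W

private theorem pt5_cont {H : Type} [NormedAddCommGroup H] [InnerProductSpace ℂ H]
    [CompleteSpace H] (W : UA H) : Continuous (pt5Hom W) := by
  have : Isometry (pt5Hom W) := by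
    refine AddMonoidHomClass.isometry_of_norm (pt5Hom W) fun A => ?_
    exact cj_norm W A
  exact this.continuous

private theorem pt5_nonneg {H : Type} [NormedAddCommGroup H] [InnerProductSpace ℂ H]
    [CompleteSpace H] (W : UA H) (P : H →L[ℂ] H) (hP : 0 ≤ P) : 0 ≤ cj W P := by
  obtain ⟨B, hB⟩ := CStarAlgebra.nonneg_iff_eq_star_mul_self.1 hP
  rw [hB, cj_mul, cj_star]
  exact star_mul_self_nonneg _

theorem pt5_proof (hPT1 : T_PT1) (hPT4 : T_PT4) : T_PT5 := by
  intro H _ _ _ W
  constructor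
  · intro P a hP ha
    have h0 := pt5_nonneg W P hP
    refine ⟨h0, ?_⟩
    rw [CFC.rpow_eq_cfc_real hP, CFC.rpow_eq_cfc_real h0]
    have h1 := (pt5Hom W).map_cfc (R := ℝ) (fun x : ℝ => x ^ a) P
      ((Real.continuous_rpow_const ha).continuousOn) (pt5_cont W)
      hP.isSelfAdjoint h0.isSelfAdjoint
    exact h1.symm
  · intro T
    obtain ⟨p1, p2, p3, p4, p5, p6, p7, p8, p9, p10, p11, p12, p13, p14, p15⟩ := hPT1 H T
    have h := hPT4 H (cj W T) (cj W (pol T)) (cj W (CFC.abs T))
      (pt5_nonneg W _ (CFC.abs_nonneg T)) ?_ ?_ ?_ ?_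
    · exact ⟨h.1.symm, h.2.symm⟩
    · rw [← cj_mul, ← p1]
    · rw [← cj_star, ← cj_mul, ← cj_mul, p3]
    · rw [← cj_star, ← cj_mul, ← cj_mul, p6]
    · intro x hx
      rw [cj_apply] at hx ⊢
      have h1 : CFC.abs T (W.U.symm x) = 0 := by
        apply W.U.injective
        rw [hx, W.U_zero]
      rw [(p8 _).2 ((p9 _).1 h1), W.U_zero]

end Pool.Agent.H48.MT
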