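import Pool.Agent.H48.MT.Targets

/-!
# MP_c80a4f_an: module PT6 (reducing projections)
-/

open InnerProductSpace Filter Topology
open scoped ComplexConjugate

namespace Pool.Agent.H48.MT

private theorem pt6_aeval {A : Type*} [Ring A] [Algebra ℝ A] {P E : A} (hE : IsIdempotentElem E)
    (hc : Commute P E) (q : Polynomial ℝ) :
    Polynomial.aeval (P * E) (q * Polynomial.X) = Polynomial.aeval P (q * Polynomial.X) * E := by
  induction q using Polynomial.induction_on' with
  | add p q hp hq => rw [add_mul, map_add, map_add, hp, hq, add_mul]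
  | monomial n c =>
    rw [Polynomial.monomial_mul_X, Polynomial.aeval_monomial, Polynomial.aeval_monomial,
      hc.mul_pow, hE.pow_succ_eq, mul_assoc]

private theorem pt6_norm {H : Type} [NormedAddCommGroup H] [InnerProductSpace ℂ H]
    [CompleteSpace H] {P : H →L[ℂ] H} (hP : 0 ≤ P) {M a ε : ℝ} (hM : ‖P‖ ≤ M) (ha : 0 < a)
    (hε : 0 ≤ ε) (q : Polynomial ℝ) (hq : ∀ x ∈ Set.Icc (0 : ℝ) M, |q.eval x - x ^ a| ≤ ε) :
    ‖Polynomial.aeval P q - P ^ a‖ ≤ ε := by
  have hsp : ∀ x ∈ spectrum ℝ P, x ∈ Set.Icc (0 : ℝ) M := by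
    intro x hx
    have h1 := spectrum_nonneg_of_nonneg hP hx
    refine ⟨h1, ?_⟩
    have h2 := spectrum.norm_le_norm_mul_of_mem hx
    have h3 : ‖(1 : H →L[ℂ] H)‖ ≤ 1 := ContinuousLinearMap.norm_id_le
    have h4 : ‖P‖ * ‖(1 : H →L[ℂ] H)‖ ≤ ‖P‖ * 1 :=
      mul_le_mul_of_nonneg_left h3 (norm_nonneg _)
    rw [Real.norm_eq_abs, abs_of_nonneg h1] at h2
    linarith
  have hsa : IsSelfAdjoint P := hP.isSelfAdjoint
  have hc1 : ContinuousOn (fun x : ℝ => x ^ a) (spectrum ℝ P) :=
    (Real.continuous_rpow_const ha.le).continuousOn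
  have hc2 : ContinuousOn q.eval (spectrum ℝ P) := q.continuous.continuousOn
  rw [CFC.rpow_eq_cfc_real hP, ← cfc_polynomial q P hsa, ← cfc_sub _ _ P hc2 hc1]
  exact norm_cfc_le hε fun x hx => hq x (hsp x hx)

private theorem pt6_pow {H : Type} [NormedAddCommGroup H] [InnerProductSpace ℂ H]
    [CompleteSpace H] {P E : H →L[ℂ] H} (hE : IsStarProjection E) (hP : 0 ≤ P)
    (hc : Commute P E) (h0 : 0 ≤ P * E) (hn : ‖E‖ ≤ 1) {a : ℝ} (ha : 0 < a) :
    (P * E) ^ a = P ^ a * E := by
  have hnorm : ‖P * E‖ ≤ ‖P‖ := by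
    refine (norm_mul_le _ _).trans ?_
    have := mul_le_mul_of_nonneg_left hn (norm_nonneg P)
    linarith
  have key : ∀ ε : ℝ, 0 < ε → ‖(P * E) ^ a - P ^ a * E‖ ≤ 4 * ε := by
    intro ε hε
    obtain ⟨q, hq⟩ := exists_polynomial_near_of_continuousOn 0 ‖P‖ (fun x : ℝ => x ^ a)
      ((Real.continuous_rpow_const ha.le).continuousOn) ε hε
    have hq0 := hq 0 ⟨le_rfl, norm_nonneg _⟩
    rw [Real.zero_rpow ha.ne', sub_zero] at hq0
    have hdec : ∀ x, (q.divX * Polynomial.X).eval x = q.eval x - q.eval 0 := by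
      intro x
      have h1 := congrArg (fun p : Polynomial ℝ => p.eval x) (Polynomial.divX_mul_X_add q)
      simp only [Polynomial.eval_add, Polynomial.eval_C] at h1
      rw [← Polynomial.coeff_zero_eq_eval_zero, ← h1]
      ring
    have hb : ∀ x ∈ Set.Icc (0 : ℝ) ‖P‖, |(q.divX * Polynomial.X).eval x - x ^ a| ≤ 2 * ε := by
      intro x hx
      rw [hdec]
      have h2 := abs_lt.1 (hq x hx)
      have h3 := abs_lt.1 hq0
      rw [abs_le]
      constructor <;> linarith [h2.1, h2.2, h3.1, h3.2]
    have e1 := pt6_norm h0 hnorm ha (by positivity) _ hb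
    have e2 := pt6_norm hP le_rfl ha (by positivity) _ hb
    rw [pt6_aeval hE.isIdempotentElem hc] at e1
    have e3 : (P * E) ^ a - P ^ a * E =
        -(Polynomial.aeval P (q.divX * Polynomial.X) * E - (P * E) ^ a) +
          (Polynomial.aeval P (q.divX * Polynomial.X) - P ^ a) * E := by
      rw [sub_mul]
      abel
    rw [e3]
    refine (norm_add_le _ _).trans ?_
    rw [norm_neg]
    have e4 : ‖(Polynomial.aeval P (q.divX * Polynomial.X) - P ^ a) * E‖ ≤ 2 * ε := by
      refine (norm_mul_le _ _).trans ?_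
      have := mul_le_mul e2 hn (norm_nonneg _) (by positivity)
      linarith
    linarith
  rw [← sub_eq_zero, ← norm_le_zero_iff]
  refine le_of_forall_pos_le_add fun ε hε => ?_
  have := key (ε / 4) (by positivity)
  linarith

theorem pt6_proof (hPT1 : T_PT1) (hPT2 : T_PT2) (hPT4 : T_PT4) : T_PT6 := by
  intro H _ _ _ E hE
  have hEE : E * E = E := hE.isIdempotentElem
  have hEs : star E = E := hE.isSelfAdjoint
  have hn : ‖E‖ ≤ 1 := by
    have h1 : ‖E‖ * ‖E‖ = ‖E‖ := by
      rw [← CStarRing.norm_star_mul_self, hEs, hEE]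
    by_contra h2
    push Not at h2
    nlinarith
  have hpos : ∀ P : H →L[ℂ] H, 0 ≤ P → Commute P E → 0 ≤ P * E := by
    intro P hP hc
    have h1 : P * E = star E * P * E := by
      rw [hEs, ← hc.eq, mul_assoc, hEE]
    rw [h1]
    exact star_left_conjugate_nonneg hP E
  refine ⟨fun P a hP hc ha => ⟨pt6_pow hE hP hc (hpos P hP hc) hn ha, ?_⟩, fun T hc => ?_⟩
  · exact (hPT2 H P hP).2.2.2.2.2.2.2.2.1 a E hc
  · obtain ⟨p1, p2, p3, p4, p5, p6, p7, p8, p9, p10, p11, p12, p13, p14, p15⟩ := hPT1 H T
    have c1 : Commute (CFC.abs T) E := Commute.cfcAbs_left hc (by rw [hEs]; exact hc)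
    have c2 : pol T * E = E * pol T := by
      have a1 : (pol T * E - E * pol T) * CFC.abs T = 0 := by
        rw [sub_mul, mul_assoc, ← c1.eq, ← mul_assoc, ← p1, mul_assoc, ← p1, hc.eq, sub_self]
      have a2 := p15 _ a1
      have a3 : (pol T * E - E * pol T) * (star (pol T) * pol T) = 0 := by
        rw [← mul_assoc, a2, zero_mul]
      rw [sub_mul, mul_assoc E, ← mul_assoc (pol T), p3, sub_eq_zero] at a3
      have a4 : pol T * E * (1 - star (pol T) * pol T) = 0 := by
        ext x
        have b1 : pol T ((1 - star (pol T) * pol T) x) = 0 := by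
          have : pol T * (1 - star (pol T) * pol T) = 0 := by
            rw [mul_sub, mul_one, ← mul_assoc, p3, sub_self]
          exact congrArg (fun F : H →L[ℂ] H => F x) this
        have b2 := (p8 _).1 b1
        have b3 : T (E ((1 - star (pol T) * pol T) x)) = 0 := by
          have : T * E = E * T := hc.eq
          have b4 := congrArg (fun F : H →L[ℂ] H => F ((1 - star (pol T) * pol T) x)) this
          simp only [mul_apply_eq_comp] at b4
          rw [b4, b2, map_zero]
        exact (p8 _).2 b3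
      rw [mul_sub, mul_one, a3, sub_eq_zero] at a4
      exact a4
    have c3 : E * star (pol T) = star (pol T) * E := by
      have := congrArg star c2
      rwa [star_mul, star_mul, hEs] at this
    refine ⟨c1, c2, ?_⟩
    have h := hPT4 H (T * E) (pol T * E) (CFC.abs T * E)
      (hpos _ (CFC.abs_nonneg T) c1) ?_ ?_ ?_ ?_
    · exact ⟨h.1.symm, h.2.symm⟩
    · calc T * E = pol T * CFC.abs T * (E * E) := by rw [← p1, hEE]
        _ = pol T * (CFC.abs T * E) * E := by simp only [mul_assoc]
        _ = pol T * (E * CFC.abs T) * E := by rw [c1.eq]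
        _ = _ := by simp only [mul_assoc]
    · rw [star_mul, hEs]
      calc pol T * E * (E * star (pol T)) * (pol T * E)
          = pol T * (E * E) * star (pol T) * pol T * E := by simp only [mul_assoc]
        _ = pol T * (E * star (pol T)) * pol T * E := by rw [hEE]; simp only [mul_assoc]
        _ = pol T * (star (pol T) * E) * pol T * E := by rw [c3]
        _ = pol T * star (pol T) * (E * pol T) * E := by simp only [mul_assoc]
        _ = pol T * star (pol T) * (pol T * E) * E := by rw [c2]
        _ = (pol T * star (pol T) * pol T) * (E * E) := by simp only [mul_assoc]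
        _ = _ := by rw [p3, hEE]
    · rw [star_mul, hEs]
      calc E * star (pol T) * (pol T * E) * (CFC.abs T * E)
          = (E * star (pol T)) * pol T * (E * CFC.abs T) * E := by simp only [mul_assoc]
        _ = (star (pol T) * E) * pol T * (CFC.abs T * E) * E := by rw [c3, ← c1.eq]
        _ = star (pol T) * (E * pol T) * CFC.abs T * (E * E) := by simp only [mul_assoc]
        _ = star (pol T) * (pol T * E) * CFC.abs T * E := by rw [← c2, hEE]
        _ = star (pol T) * pol T * (E * CFC.abs T) * E := by simp only [mul_assoc]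
        _ = star (pol T) * pol T * (CFC.abs T * E) * E := by rw [← c1.eq]
        _ = (star (pol T) * pol T * CFC.abs T) * (E * E) := by simp only [mul_assoc]
        _ = _ := by rw [p6, hEE]
    · intro x hx
      exact (p8 _).2 ((p9 _).1 hx)

end Pool.Agent.H48.MT
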