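import Pool.Agent.H48.MT.Targets

/-!
# MP_c80a4f_an: module SC (preimages of the identity)
-/

open InnerProductSpace Filter Topology
open scoped ComplexConjugate

namespace Pool.Agent.H48.MT

private theorem sc_pos {H : Type} [NormedAddCommGroup H] [InnerProductSpace ℂ H]
    [CompleteSpace H] (hPT1 : T_PT1) (hPT2 : T_PT2) (hPT3 : T_PT3) (T : H →L[ℂ] H) {l : ℝ}
    (h0 : 0 < l) (h1 : l ≤ 1 / 2) (h : mm l T = 1) : T = 1 := by
  obtain ⟨p1, p2, p3, p4, p5, p6, p7, p8, p9, p10, p11, p12, p13, p14, p15⟩ := hPT1 H T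
  set P := CFC.abs T with hP
  set V := pol T with hV
  have P0 : 0 ≤ P := CFC.abs_nonneg T
  obtain ⟨q1, q2, q3, q4, q5, q6, q7, q8, q9, q10, q11⟩ := hPT2 H P P0
  -- the exponent `1 - l = l + mu`
  set mu : ℝ := 1 - 2 * l with hmu
  have hmu0 : 0 ≤ mu := by rw [hmu]; linarith
  have e1 : P ^ (1 - l) = P ^ mu * P ^ l := by
    rcases hmu0.eq_or_lt with hm | hm
    · rw [← hm, q1, one_mul]
      congr 1
      linarith
    · rw [q4 mu l hm h0]
      congr 1
      linarith
  have e2 : P ^ (1 - l) = P ^ l * P ^ mu := by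
    rcases hmu0.eq_or_lt with hm | hm
    · rw [← hm, q1, mul_one]
      congr 1
      linarith
    · rw [q4 l mu h0 hm]
      congr 1
      linarith
  have e3 : P ^ l * (V * P ^ mu + P ^ mu * V) * P ^ l = (2 : ℂ) • 1 := by
    have h2 : (2 : ℂ) • mm l T = (2 : ℂ) • 1 := by rw [h]
    unfold mm al at h2
    rw [smul_smul, mul_inv_cancel₀ (two_ne_zero), one_smul, ← hP, ← hV, sub_sub_cancel] at h2
    rw [← h2]
    nth_rewrite 1 [e1]
    rw [e2]
    noncomm_ring
  have hl : IsUnit (P ^ l) := by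
    rw [isUnit_iff_exists_and_exists]
    constructor
    · refine ⟨(2 : ℂ)⁻¹ • ((V * P ^ mu + P ^ mu * V) * P ^ l), ?_⟩
      rw [mul_smul_comm, ← mul_assoc, e3, smul_smul, inv_mul_cancel₀ two_ne_zero, one_smul]
    · refine ⟨(2 : ℂ)⁻¹ • (P ^ l * (V * P ^ mu + P ^ mu * V)), ?_⟩
      rw [smul_mul_assoc, e3, smul_smul, inv_mul_cancel₀ two_ne_zero, one_smul]
  have hPu : IsUnit P := by
    have h2 := (hPT3 H (P ^ l) (q3 l) hl).2.2.1 (1 / l)
    rw [q5 l (1 / l) h0 (by positivity), mul_one_div_cancel h0.ne', q2] at h2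
    exact h2
  obtain ⟨r1, r2, r3, r4, r5, r6⟩ := hPT3 H P P0 hPu
  have hE : star V * V = 1 := by
    have h2 : (star V * V - 1) * P = 0 := by rw [sub_mul, p6, one_mul, sub_self]
    have h3 := (hPu.mul_left_eq_zero).1 h2
    exact sub_eq_zero.1 h3
  -- `W = 2 R`
  have e4 : V * P ^ mu + P ^ mu * V = (2 : ℂ) • P ^ (-2 * l) := by
    have a1 : P ^ (-l) * P ^ l = 1 := by rw [r1, neg_add_cancel, q1]
    have a2 : P ^ l * P ^ (-l) = 1 := by rw [r1, add_neg_cancel, q1]
    calc V * P ^ mu + P ^ mu * V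
        = (P ^ (-l) * P ^ l) * (V * P ^ mu + P ^ mu * V) * (P ^ l * P ^ (-l)) := by
          rw [a1, a2, one_mul, mul_one]
      _ = P ^ (-l) * (P ^ l * (V * P ^ mu + P ^ mu * V) * P ^ l) * P ^ (-l) := by
          simp only [mul_assoc]
      _ = (2 : ℂ) • (P ^ (-l) * P ^ (-l)) := by
          rw [e3, mul_smul_comm, mul_one, smul_mul_assoc]
      _ = _ := by rw [r1]; congr 2; ring
  have sa : ∀ a : ℝ, star (P ^ a) = P ^ a := fun a => (q3 a).isSelfAdjoint
  have e5 : P ^ mu * star V + star V * P ^ mu = (2 : ℂ) • P ^ (-2 * l) := by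
    have h2 := congrArg star e4
    rw [star_add, star_mul, star_mul, star_smul, sa, sa] at h2
    rw [h2]
    congr 1
    simp
  -- anything commuting with `Q ^ 2` commutes with `Q`
  have hcomm : ∀ X : H →L[ℂ] H, P ^ mu * P ^ mu * X = X * (P ^ mu * P ^ mu) →
      P ^ mu * X = X * P ^ mu := by
    intro X hX
    rcases hmu0.eq_or_lt with hm | hm
    · rw [← hm, q1, one_mul, mul_one]
    · rw [q4 mu mu hm hm] at hX
      have h2 : Commute P X := q10 (mu + mu) X (by linarith) hX
      exact (q9 mu X h2).eq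
  have hQu : IsUnit (P ^ mu) := r3 mu
  have hVs : V = star V := by
    set K := V - star V with hK
    have a1 : K * P ^ mu = -(P ^ mu * K) := by
      have h2 : V * P ^ mu + P ^ mu * V - (P ^ mu * star V + star V * P ^ mu) = 0 := by
        rw [e4, e5, sub_self]
      rw [hK, sub_mul, mul_sub, ← sub_eq_zero, ← h2]
      abel
    have a2 : P ^ mu * K = K * P ^ mu := by
      apply hcomm
      calc P ^ mu * P ^ mu * K = P ^ mu * (P ^ mu * K) := by rw [mul_assoc]
        _ = P ^ mu * (-(K * P ^ mu)) := by rw [a1, neg_neg]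
        _ = -(P ^ mu * K) * P ^ mu := by rw [mul_neg, neg_mul, mul_assoc]
        _ = K * P ^ mu * P ^ mu := by rw [← a1]
        _ = _ := by rw [mul_assoc]
    have a3 : P ^ mu * K = 0 := by
      rw [← a2] at a1
      have h2 : (2 : ℂ) • (P ^ mu * K) = 0 := by
        rw [two_smul]
        nth_rewrite 1 [a1]
        rw [neg_add_cancel]
      rcases smul_eq_zero.1 h2 with h3 | h3
      · exact absurd h3 two_ne_zero
      · exact h3
    have a4 : K = 0 := (hQu.mul_right_eq_zero).1 a3
    exact sub_eq_zero.1 a4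
  have hVV : V * V = 1 := by
    nth_rewrite 1 [hVs]
    exact hE
  have hQR : P ^ mu * P ^ (-2 * l) = P ^ (-2 * l) * P ^ mu := by
    rw [r1, r1, add_comm]
  have hVQ : P ^ mu * V = V * P ^ mu := by
    apply hcomm
    have h2 : P ^ mu * (V * P ^ mu + P ^ mu * V) = (V * P ^ mu + P ^ mu * V) * P ^ mu := by
      rw [e4, mul_smul_comm, hQR, smul_mul_assoc]
    rw [mul_add, add_mul] at h2
    have h3 : P ^ mu * (V * P ^ mu) = P ^ mu * V * P ^ mu := by rw [mul_assoc]
    rw [h3, add_comm, add_left_inj] at h2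
    rw [mul_assoc, h2, mul_assoc]
  have hVP : V * P ^ mu = P ^ (-2 * l) := by
    rw [hVQ, ← two_smul ℂ] at e4
    exact smul_right_injective _ (two_ne_zero (α := ℂ)) e4
  have hV2 : V = P ^ (-1 : ℝ) := by
    calc V = V * (P ^ mu * P ^ (-mu)) := by rw [r1, add_neg_cancel, q1, mul_one]
      _ = P ^ (-2 * l) * P ^ (-mu) := by rw [← mul_assoc, hVP]
      _ = _ := by rw [r1]; congr 1; rw [hmu]; ring
  have hV0 : 0 ≤ V := by rw [hV2]; exact q3 _
  have hV1 : V = 1 := by
    refine (hPT3 H V hV0 ?_).2.2.2.2.2 hVV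
    exact isUnit_iff_exists_and_exists.2 ⟨⟨V, hVV⟩, ⟨V, hVV⟩⟩
  have hP1 : P = 1 := by
    have h2 := r4
    rw [← hV2, hV1, mul_one] at h2
    exact h2
  rw [p1, hV1, hP1, one_mul]

private theorem sc_zero {H : Type} [NormedAddCommGroup H] [InnerProductSpace ℂ H]
    [CompleteSpace H] (hPT1 : T_PT1) (hPT2 : T_PT2) (T : H →L[ℂ] H) (h : mm 0 T = 1) :
    T = 1 := by
  obtain ⟨p1, p2, p3, p4, p5, p6, p7, p8, p9, p10, p11, p12, p13, p14, p15⟩ := hPT1 H T
  set P := CFC.abs T with hP
  set V := pol T with hV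
  have P0 : 0 ≤ P := CFC.abs_nonneg T
  obtain ⟨q1, q2, q3, q4, q5, q6, q7, q8, q9, q10, q11⟩ := hPT2 H P P0
  have e1 : V * P + P * V = (2 : ℂ) • 1 := by
    have h2 : (2 : ℂ) • mm 0 T = (2 : ℂ) • 1 := by rw [h]
    unfold mm al at h2
    rw [smul_smul, mul_inv_cancel₀ (two_ne_zero), one_smul, ← hP, ← hV, sub_zero, sub_self,
      q1, q2, one_mul, mul_one] at h2
    exact h2
  have hker : ∀ x, P x = 0 → x = 0 := by
    intro x hx
    have h2 : V x = 0 := (p8 x).2 ((p9 x).1 hx)
    have h3 := congrArg (fun F : H →L[ℂ] H => F x) e1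
    simp only [add_apply, mul_apply_eq_comp, hx, h2, map_zero, add_zero, smul_apply,
      one_apply_eq_self] at h3
    have h4 : (2 : ℂ) • x = 0 := h3.symm
    exact (smul_eq_zero.1 h4).resolve_left two_ne_zero
  have hE : star V * V = 1 := by
    ext x
    have h2 : P ((star V * V) x - x) = 0 := by
      have h3 := congrArg (fun F : H →L[ℂ] H => F x) p7
      simp only [mul_apply_eq_comp] at h3
      rw [map_sub, mul_apply_eq_comp, h3, sub_self]
    exact sub_eq_zero.1 (hker _ h2)
  have sP : star P = P := P0.isSelfAdjoint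
  have e2 : P * star V + star V * P = (2 : ℂ) • 1 := by
    have h2 := congrArg star e1
    rw [star_add, star_mul, star_mul, star_smul, sP, star_one] at h2
    rw [h2]
    congr 1
    simp
  have hVs : V = star V := by
    set K := V - star V with hK
    have a1 : K * P = -(P * K) := by
      have h2 : V * P + P * V - (P * star V + star V * P) = 0 := by rw [e1, e2, sub_self]
      rw [hK, sub_mul, mul_sub, ← sub_eq_zero, ← h2]
      abel
    have a2 : Commute P K := by
      apply q10 2 K (by norm_num)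
      have h3 : P ^ (2 : ℝ) = P * P := by
        have := q4 1 1 one_pos one_pos
        rw [q2] at this
        rw [this]
        norm_num
      rw [h3]
      change P * P * K = K * (P * P)
      calc P * P * K = P * (P * K) := by rw [mul_assoc]
        _ = P * (-(K * P)) := by rw [a1, neg_neg]
        _ = -(P * K) * P := by rw [mul_neg, neg_mul, mul_assoc]
        _ = K * P * P := by rw [← a1]
        _ = _ := by rw [mul_assoc]
    have a3 : P * K = 0 := by
      rw [← a2.eq] at a1
      have h2 : (2 : ℂ) • (P * K) = 0 := by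
        rw [two_smul]
        nth_rewrite 1 [a1]
        rw [neg_add_cancel]
      rcases smul_eq_zero.1 h2 with h3 | h3
      · exact absurd h3 two_ne_zero
      · exact h3
    have a4 : K = 0 := by
      ext x
      exact hker _ (congrArg (fun F : H →L[ℂ] H => F x) a3)
    exact sub_eq_zero.1 a4
  have hVV : V * V = 1 := by
    nth_rewrite 1 [hVs]
    exact hE
  have hV1 : V = 1 := by
    ext x
    set e := V x - x with he
    have a1 : V e = -e := by
      have h3 : V (V x) = x := congrArg (fun F : H →L[ℂ] H => F x) hVV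
      rw [he, map_sub, h3]
      abel
    have a2 : (inner ℂ e ((V * P + P * V) e)).re = 2 * ‖e‖ ^ 2 := by
      rw [e1, smul_apply, one_apply_eq_self, inner_smul_right, inner_self_eq_norm_sq_to_K]
      have : (2 : ℂ) * ((‖e‖ : ℂ)) ^ 2 = ((2 * ‖e‖ ^ 2 : ℝ) : ℂ) := by push_cast; ring
      exact (congrArg Complex.re this).trans (Complex.ofReal_re _)
    have a3 : inner ℂ e (V (P e)) = inner ℂ (V e) (P e) := by
      nth_rewrite 1 [hVs]
      rw [ContinuousLinearMap.star_eq_adjoint, ContinuousLinearMap.adjoint_inner_right]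
    have a4 : inner ℂ e ((V * P + P * V) e) = -2 * inner ℂ e (P e) := by
      rw [add_apply, mul_apply_eq_comp, mul_apply_eq_comp, inner_add_right, a3, a1, map_neg,
        inner_neg_left, inner_neg_right]
      ring
    have a5 : 0 ≤ (inner ℂ e (P e)).re := by
      have h3 := ((ContinuousLinearMap.nonneg_iff_isPositive P).1 P0).inner_nonneg_right e
      exact (Complex.nonneg_iff.1 h3).1
    rw [a4] at a2
    have a6 : ‖e‖ ^ 2 ≤ 0 := by
      have h4 : (-2 * inner ℂ e (P e)).re = -2 * (inner ℂ e (P e)).re := by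
        simp [Complex.mul_re]
      rw [h4] at a2
      linarith
    have a7 : ‖e‖ = 0 := by nlinarith [norm_nonneg e]
    have a8 : e = 0 := norm_eq_zero.1 a7
    exact sub_eq_zero.1 a8
  have hP1 : P = 1 := by
    rw [hV1, one_mul, mul_one, ← two_smul ℂ P] at e1
    exact smul_right_injective _ (two_ne_zero (α := ℂ)) e1
  rw [p1, hV1, hP1, one_mul]

theorem sc_proof (hPT1 : T_PT1) (hPT2 : T_PT2) (hPT3 : T_PT3) : T_SC := by
  intro H _ _ _ T l h0 h1 h
  rcases h0.eq_or_lt with h0 | h0
  · rw [← h0] at h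
    exact sc_zero hPT1 hPT2 T h
  · exact sc_pos hPT1 hPT2 hPT3 T h0 h1 h

end Pool.Agent.H48.MT
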