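import Pool.Agent.H79.MT.Api5

/-!
# MP_c80a4f_an: modules 5G and 5D (the same homogeneity and the same factor for all pairs)
-/

open Pool.Agent.H48.MT InnerProductSpace Filter Topology
open scoped ComplexConjugate

namespace Pool.Agent.H79.MT5

/-- decomposition of a unit vector with respect to a unit vector -/
private theorem sgd_decomp {H : Type} [NormedAddCommGroup H] [InnerProductSpace ℂ H]
    {y y1 : H} (hy : ‖y‖ = 1) (hy1 : ‖y1‖ = 1) :
    (∃ a : ℂ, ‖a‖ = 1 ∧ y1 = a • y) ∨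
    ∃ (z : H) (a b : ℂ), Op y z ∧ y1 = a • y + b • z ∧ ‖a‖ ^ 2 + ‖b‖ ^ 2 = 1 ∧
      (∀ x, inner ℂ x y = 0 → inner ℂ x y1 = 0 → inner ℂ x z = 0) := by
  set a := inner ℂ y y1 with ha
  set r := y1 - a • y with hr
  have hyy : inner ℂ y y = (1 : ℂ) := inner_self_one hy
  have h0 : inner ℂ y r = 0 := by
    rw [hr, inner_sub_right, inner_smul_right, hyy, mul_one, ← ha, sub_self]
  have hyr : y1 = a • y + r := by rw [hr]; abel
  have hsq : ‖a‖ ^ 2 + ‖r‖ ^ 2 = 1 := by
    have h5 : inner ℂ (a • y) r = 0 := by rw [inner_smul_left, h0, mul_zero]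
    have h6 := norm_add_sq_eq_norm_sq_add_norm_sq_of_inner_eq_zero _ _ h5
    rw [← hyr, norm_smul, hy, hy1, mul_one, mul_one] at h6
    rw [pow_two, pow_two]
    exact h6.symm
  by_cases hr1 : r = 0
  · left
    refine ⟨a, ?_, by rw [hyr, hr1, add_zero]⟩
    rw [hyr, hr1, add_zero, norm_smul, hy, mul_one] at hy1
    exact hy1
  · right
    have hn : (‖r‖ : ℂ) ≠ 0 := by
      rw [Ne, Complex.ofReal_eq_zero, norm_eq_zero]
      exact hr1
    refine ⟨(‖r‖ : ℂ)⁻¹ • r, a, (‖r‖ : ℂ), ⟨hy, ?_, ?_⟩, ?_, ?_, fun x h1 h2 => ?_⟩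
    · rw [norm_smul, norm_inv, Complex.norm_real, norm_norm,
        inv_mul_cancel₀ (norm_ne_zero_iff.2 hr1)]
    · rw [inner_smul_right, h0, mul_zero]
    · rw [smul_smul, mul_inv_cancel₀ hn, one_smul]
      exact hyr
    · rw [Complex.norm_real, norm_norm]
      exact hsq
    · rw [inner_smul_right, hr, inner_sub_right, inner_smul_right, h1, h2, mul_zero, sub_zero,
        mul_zero]

/-- a property of orthonormal pairs which depends only on the plane, and which is inherited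
between pairs with the same first vector, is the same for all pairs -/
private theorem sgd_all {H : Type} [NormedAddCommGroup H] [InnerProductSpace ℂ H]
    (G : H → H → Prop)
    (hpl : ∀ (x y : H) (a b c : ℂ), Op x y → G x y → ‖a‖ ^ 2 + ‖b‖ ^ 2 = 1 → ‖c‖ = 1 →
      Op (a • x + b • y) (c • (-(conj b) • x + conj a • y)) ∧
      G (a • x + b • y) (c • (-(conj b) • x + conj a • y)))
    (hcv : ∀ x y y' : H, Op x y → Op x y' → G x y → G x y') {x y x' y' : H} (h1 : Op x y)
    (h2 : Op x' y') (h3 : G x y) : G x' y' := by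
  have key : ∃ (z : H) (a b : ℂ), Op x z ∧ x' = a • x + b • z ∧ ‖a‖ ^ 2 + ‖b‖ ^ 2 = 1 := by
    rcases sgd_decomp h1.1 h2.1 with ⟨a, ha, h⟩ | ⟨z, a, b, hz, h, hab, -⟩
    · refine ⟨y, a, 0, h1, ?_, ?_⟩
      · rw [zero_smul, add_zero]
        exact h
      · rw [ha, norm_zero]
        norm_num
    · exact ⟨z, a, b, hz, h, hab⟩
  obtain ⟨z, a, b, hz, h, hab⟩ := key
  have h4 := hcv x y z h1 hz h3
  obtain ⟨h5, h6⟩ := hpl x z a b 1 hz h4 hab norm_one
  rw [← h] at h5 h6
  exact hcv _ _ _ h5 h2 h6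

private theorem sgd_I {h h' : ℂ → ℂ} (hh : IC h) (hh' : IC h') (hI : h Complex.I = h' Complex.I) :
    h' = h := by
  funext c
  rcases hh with h1 | h1 <;> rcases hh' with h2 | h2
  · rw [h1, h2]
  · rw [h1, h2, Complex.conj_I] at hI
    exact absurd hI (by
      intro h3
      have := congrArg Complex.im h3
      norm_num at this)
  · rw [h1, h2, Complex.conj_I] at hI
    exact absurd hI (by
      intro h3
      have := congrArg Complex.im h3
      norm_num at this)
  · rw [h1, h2]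

theorem sg_proof (hSH : T_SH) (hSQ : T_SQ) : T_SG := by
  intro H _ _ _ L m hL Φ hA
  by_cases hex : ∃ x y : H, Op x y
  · obtain ⟨x0, y0, h0⟩ := hex
    obtain ⟨u0, v0, δ0, h, huv0, hδ0, hh, hp0⟩ := hSH H L m hL Φ hA x0 y0 h0
    refine ⟨h, hh, fun x y hxy => ?_⟩
    refine sgd_all (fun x y => ∃ (u v : H) (δ : ℂ), Op u v ∧ δ ≠ 0 ∧ PD Φ h δ x y u v) ?_ ?_ h0 hxy
      ⟨u0, v0, δ0, huv0, hδ0, hp0⟩
    · rintro x y a b c hxy ⟨u, v, δ, huv, hδ, hp⟩ hab hc
      obtain ⟨q1, q2, q3⟩ := hSQ H Φ h δ x y u v a b c hh hxy huv hp hab hc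
      exact ⟨q1, _, _, δ, q2, hδ, q3⟩
    · rintro x y1 y2 hx1 hx2 ⟨u1, v1, δ1, huv1, hδ1, hp1⟩
      by_cases hz : y1 + y2 = 0
      · have e1 : y2 = (-1 : ℂ) • (-(conj (0 : ℂ)) • x + conj (1 : ℂ) • y1) := by
          rw [map_zero, neg_zero, zero_smul, zero_add, map_one, one_smul, neg_one_smul]
          exact eq_neg_of_add_eq_zero_right hz
        have e2 : x = (1 : ℂ) • x + (0 : ℂ) • y1 := by
          rw [one_smul, zero_smul, add_zero]
        obtain ⟨q1, q2, q3⟩ := hSQ H Φ h δ1 x y1 u1 v1 1 0 (-1) hh hx1 huv1 hp1 (by norm_num)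
          (by norm_num)
        rw [← e1, ← e2] at q3
        exact ⟨_, _, δ1, q2, hδ1, q3⟩
      · obtain ⟨u2, v2, δ2, h2, huv2, hδ2, hh2, hp2⟩ := hSH H L m hL Φ hA x y2 hx2
        set t := ‖y1 + y2‖ with ht
        have ht0 : (t : ℂ) ≠ 0 := by
          rw [Ne, Complex.ofReal_eq_zero, ht, norm_eq_zero]
          exact hz
        set y3 := (t : ℂ)⁻¹ • (y1 + y2) with hy3
        have hx3 : Op x y3 := by
          refine ⟨hx1.1, ?_, ?_⟩
          · rw [hy3, norm_smul, norm_inv, Complex.norm_real, ht, norm_norm,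
              inv_mul_cancel₀ (norm_ne_zero_iff.2 hz)]
          · rw [hy3, inner_smul_right, inner_add_right, hx1.2.2, hx2.2.2, add_zero, mul_zero]
        obtain ⟨u3, v3, δ3, h3, huv3, hδ3, hh3, hp3⟩ := hSH H L m hL Φ hA x y3 hx3
        have e1 : ro x y1 + ro x y2 = (t : ℂ) • ro x y3 := by
          rw [← ro_add_right, hy3, ro_smul_right, map_inv₀, Complex.conj_ofReal, smul_smul,
            mul_inv_cancel₀ ht0, one_smul]
        have f1 : Φ (Complex.I • ro x y1) = h Complex.I • Φ (ro x y1) := by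
          rw [hp1.xy hh, hp1.xy1 hh, smul_smul, mul_comm]
        have f2 : Φ (Complex.I • ro x y2) = h2 Complex.I • Φ (ro x y2) := by
          rw [hp2.xy hh2, hp2.xy1 hh2, smul_smul, mul_comm]
        have f3 : Φ (Complex.I • ro x y1) + Φ (Complex.I • ro x y2) =
            h3 Complex.I • (Φ (ro x y1) + Φ (ro x y2)) := by
          rw [← hA.add, ← hA.add, ← smul_add, e1, smul_smul, hp3.xy hh3, hp3.xy hh3, hh3.mul,
            smul_smul]
          congr 1
          ring
        have n1 : Φ (ro x y1) ≠ 0 := by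
          rw [Ne, hA.eq_zero, ro_eq_zero, not_or]
          exact ⟨hx1.ne_left, hx1.ne_right⟩
        have n2 : Φ (ro x y2) ≠ 0 := by
          rw [Ne, hA.eq_zero, ro_eq_zero, not_or]
          exact ⟨hx2.ne_left, hx2.ne_right⟩
        have hvalI : ∀ {k : ℂ → ℂ}, IC k → k Complex.I = Complex.I ∨ k Complex.I = -Complex.I := by
          intro k hk
          rcases hk with hk | hk
          · left
            rw [hk]
          · right
            rw [hk, Complex.conj_I]
        have hI : h Complex.I = h2 Complex.I := by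
          by_contra hne
          rw [f1, f2] at f3
          have h4 : h3 Complex.I = h Complex.I ∨ h3 Complex.I = h2 Complex.I := by
            rcases hvalI hh with a1 | a1 <;> rcases hvalI hh2 with a2 | a2 <;>
              rcases hvalI hh3 with a3 | a3 <;> rw [a1, a2] at hne <;> rw [a1, a2, a3] <;>
              first
                | exact absurd rfl hne
                | exact Or.inl rfl
                | exact Or.inr rfl
          rcases h4 with h4 | h4
          · rw [h4, smul_add, add_right_inj] at f3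
            have h5 : (h2 Complex.I - h Complex.I) • Φ (ro x y2) = 0 := by
              rw [sub_smul, f3, sub_self]
            rcases smul_eq_zero.1 h5 with h6 | h6
            · exact hne (sub_eq_zero.1 h6).symm
            · exact n2 h6
          · rw [h4, smul_add, add_left_inj] at f3
            have h5 : (h Complex.I - h2 Complex.I) • Φ (ro x y1) = 0 := by
              rw [sub_smul, f3, sub_self]
            rcases smul_eq_zero.1 h5 with h6 | h6
            · exact hne (sub_eq_zero.1 h6)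
            · exact n1 h6
        have heq : h2 = h := sgd_I hh hh2 hI
        rw [heq] at hp2
        exact ⟨u2, v2, δ2, huv2, hδ2, hp2⟩
  · push Not at hex
    exact ⟨fun c => c, IC.id, fun x y hxy => absurd hxy (hex x y)⟩

theorem sd_proof (hSG : T_SG) (hST : T_ST) (hSQ : T_SQ) : T_SD := by
  intro H _ _ _ L m hL Φ hA hTwo
  obtain ⟨h, hh, hG⟩ := hSG H L m hL Φ hA
  obtain ⟨x0, y0, hx0⟩ := hTwo
  have h0 : Op x0 y0 := hx0
  obtain ⟨u0, v0, δ, huv0, hδ, hp0⟩ := hG x0 y0 h0
  refine ⟨h, δ, hh, hδ, fun x y hxy => ?_⟩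
  have hpl : ∀ (x y : H) (a b c : ℂ), Op x y → (∃ u v : H, Op u v ∧ PD Φ h δ x y u v) →
      ‖a‖ ^ 2 + ‖b‖ ^ 2 = 1 → ‖c‖ = 1 →
      Op (a • x + b • y) (c • (-(conj b) • x + conj a • y)) ∧
      ∃ u v : H, Op u v ∧ PD Φ h δ (a • x + b • y) (c • (-(conj b) • x + conj a • y)) u v := by
    rintro x y a b c hxy ⟨u, v, huv, hp⟩ hab hc
    obtain ⟨q1, q2, q3⟩ := hSQ H Φ h δ x y u v a b c hh hxy huv hp hab hc
    exact ⟨q1, _, _, q2, q3⟩
  have hsw : ∀ x y : H, (∃ u v : H, Op u v ∧ PD Φ h δ x y u v) →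
      ∃ u v : H, Op u v ∧ PD Φ h δ y x u v := by
    rintro x y ⟨u, v, huv, hp⟩
    exact ⟨v, u, huv.symm, hp.swap hh⟩
  have htr : ∀ x y z : H, Op x y → Op x z → Op y z → (∃ u v : H, Op u v ∧ PD Φ h δ x z u v) →
      ∃ u v : H, Op u v ∧ PD Φ h δ y z u v := by
    rintro x y z hxy hxz hyz ⟨u, v, huv, hp⟩
    obtain ⟨u2, v2, δ2, huv2, hδ2, hp2⟩ := hG y z hyz
    obtain ⟨h1, -, -⟩ := hST H L m hL Φ hA h hh hG x y z u v u2 v2 δ δ2 hxy hxz hyz huv huv2 hδ hδ2
      hp hp2
    rw [← h1] at hp2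
    exact ⟨u2, v2, huv2, hp2⟩
  refine sgd_all (fun x y => ∃ u v : H, Op u v ∧ PD Φ h δ x y u v) hpl ?_ h0 hxy
    ⟨u0, v0, huv0, hp0⟩
  intro x y y1 hxy hxy1 hp
  rcases sgd_decomp hxy.2.1 hxy1.2.1 with ⟨a, ha, he⟩ | ⟨z, a, b, hz, he, hab, horth⟩
  · obtain ⟨-, h2⟩ := hpl x y 1 0 a hxy hp (by norm_num) ha
    have e1 : y1 = a • (-(conj (0 : ℂ)) • x + conj (1 : ℂ) • y) := by
      rw [map_zero, neg_zero, zero_smul, zero_add, map_one, one_smul]
      exact he
    have e2 : x = (1 : ℂ) • x + (0 : ℂ) • y := by rw [one_smul, zero_smul, add_zero]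
    rw [← e1, ← e2] at h2
    exact h2
  · have hxz : Op x z := ⟨hxy.1, hz.2.1, horth x hxy.2.2 hxy1.2.2⟩
    -- the pair `z, y`
    have h1 := htr x z y hxz hxy hz.symm hp
    obtain ⟨h3, h4⟩ := hpl y z a b 1 hz (hsw _ _ h1) hab norm_one
    rw [← he] at h3 h4
    set w := (1 : ℂ) • (-(conj b) • y + conj a • z) with hw
    have hwx : Op w x := by
      refine ⟨h3.2.1, hxy.1, ?_⟩
      rw [hw, one_smul, inner_add_left, inner_smul_left, inner_smul_left, hxy.inner_yx,
        hxz.inner_yx, mul_zero, mul_zero, add_zero]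
    exact htr w x y1 hwx h3.symm hxy1 (hsw _ _ h4)

end Pool.Agent.H79.MT5
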