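import Pool.Agent.H79.MT.Api5

/-!
# MP_c80a4f_an: module 5H (homogeneity in a plane)
-/

open Pool.Agent.H48.MT InnerProductSpace Filter Topology
open scoped ComplexConjugate

namespace Pool.Agent.H79.MT5

/-- a complex number of absolute value at most two is a sum of two numbers of absolute value one -/
private theorem sh_two (c : ℂ) (hc : ‖c‖ ≤ 2) : ∃ p q : ℂ, ‖p‖ = 1 ∧ ‖q‖ = 1 ∧ c = p + q := by
  by_cases h0 : c = 0
  · exact ⟨1, -1, norm_one, by rw [norm_neg, norm_one], by rw [h0]; ring⟩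
  · have hn : 0 < ‖c‖ := norm_pos_iff.2 h0
    set s : ℝ := Real.sqrt (1 / ‖c‖ ^ 2 - 1 / 4) with hs
    have h1 : 0 ≤ 1 / ‖c‖ ^ 2 - 1 / 4 := by
      have h2 : ‖c‖ ^ 2 ≤ 4 := by nlinarith
      have h3 : (1 : ℝ) / 4 ≤ 1 / ‖c‖ ^ 2 := one_div_le_one_div_of_le (by positivity) h2
      linarith
    have hss : s ^ 2 = 1 / ‖c‖ ^ 2 - 1 / 4 := Real.sq_sqrt h1
    have key : ∀ t : ℝ, t ^ 2 = 1 / ‖c‖ ^ 2 - 1 / 4 → ‖c * (1 / 2 + t * Complex.I)‖ = 1 := by
      intro t ht
      have h2 : ‖(1 / 2 + t * Complex.I : ℂ)‖ ^ 2 = 1 / ‖c‖ ^ 2 := by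
        rw [← Complex.normSq_eq_norm_sq, Complex.normSq_apply]
        have e1 : (1 / 2 + t * Complex.I : ℂ).re = 1 / 2 := by simp
        have e2 : (1 / 2 + t * Complex.I : ℂ).im = t := by simp
        rw [e1, e2]
        nlinarith
      have h3 : ‖c * (1 / 2 + t * Complex.I)‖ ^ 2 = 1 := by
        rw [norm_mul, mul_pow, h2]
        field_simp
      have h4 := norm_nonneg (c * (1 / 2 + t * Complex.I))
      nlinarith
    refine ⟨c * (1 / 2 + s * Complex.I), c * (1 / 2 + (-s : ℝ) * Complex.I), key s hss,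
      key (-s) (by rw [neg_sq, hss]), ?_⟩
    push_cast
    ring

/-- induction from the unit circle -/
private theorem sh_ind (P : ℂ → Prop) (hadd : ∀ a b, P a → P b → P (a + b))
    (h1 : ∀ c, ‖c‖ = 1 → P c) (c : ℂ) : P c := by
  obtain ⟨n, hn⟩ := exists_nat_gt ‖c‖
  have hn0 : 0 < (n : ℝ) := lt_of_le_of_lt (norm_nonneg c) hn
  have hnN : n ≠ 0 := by
    rintro rfl
    simp at hn0
  have hc : ‖c / n‖ ≤ 2 := by
    rw [norm_div, Complex.norm_natCast, div_le_iff₀ hn0]
    linarith
  obtain ⟨p, q, hp, hq, hpq⟩ := sh_two _ hc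
  have h2 : P (c / n) := by
    rw [hpq]
    exact hadd p q (h1 p hp) (h1 q hq)
  have h3 : ∀ k : ℕ, P (((k + 1 : ℕ) : ℂ) * (c / n)) := by
    intro k
    induction k with
    | zero => simpa using h2
    | succ k ih =>
      have h4 := hadd _ _ ih h2
      have h5 : ((k + 1 + 1 : ℕ) : ℂ) * (c / n) = ((k + 1 : ℕ) : ℂ) * (c / n) + c / n := by
        push_cast
        ring
      rw [h5]
      exact h4
  obtain ⟨k, rfl⟩ := Nat.exists_eq_succ_of_ne_zero hnN
  have h4 := h3 k
  have h5 : ((k + 1 : ℕ) : ℂ) * (c / ((k.succ : ℕ) : ℂ)) = c := by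
    have : ((k.succ : ℕ) : ℂ) ≠ 0 := by exact_mod_cast hnN
    rw [Nat.succ_eq_add_one] at this ⊢
    field_simp
  rwa [h5] at h4

/-- additive functions of absolute value one on the unit circle -/
private theorem sh_add (g : ℂ → ℂ) (hadd : ∀ a b, g (a + b) = g a + g b)
    (h1 : ∀ c, ‖c‖ = 1 → ‖g c‖ = 1) (hone : g 1 = 1) : IC g := by
  let G : ℂ →+ ℂ := AddMonoidHom.mk' g hadd
  have hG : ∀ c, G c = g c := fun _ => rfl
  have h2 : ∀ c, ‖c‖ ≤ 2 → ‖g c‖ ≤ 2 := by
    intro c hc
    obtain ⟨p, q, hp, hq, rfl⟩ := sh_two c hc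
    rw [hadd]
    have := norm_add_le (g p) (g q)
    rw [h1 p hp, h1 q hq] at this
    linarith
  have h3 : ∀ c, ‖G c‖ ≤ 1 * ‖c‖ := by
    intro c
    rw [one_mul]
    by_contra hlt
    push Not at hlt
    obtain ⟨r, hr1, hr2⟩ := exists_rat_btwn hlt
    have hr0 : (0 : ℝ) < r := lt_of_le_of_lt (norm_nonneg c) hr1
    have h4 : G ((2 / r : ℚ) • c) = (2 / r : ℚ) • G c := map_rat_smul G _ _
    have h5 : ‖((2 / r : ℚ) • c : ℂ)‖ ≤ 2 := by
      rw [Rat.smul_def, norm_mul]
      have : ‖((2 / r : ℚ) : ℂ)‖ = 2 / r := by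
        rw [Complex.norm_ratCast]
        push_cast
        rw [abs_of_pos (by positivity)]
      rw [this, div_mul_eq_mul_div, div_le_iff₀ hr0]
      nlinarith
    have h6 := h2 _ h5
    rw [← hG, h4, Rat.smul_def, norm_mul] at h6
    have : ‖((2 / r : ℚ) : ℂ)‖ = 2 / r := by
      rw [Complex.norm_ratCast]
      push_cast
      rw [abs_of_pos (by positivity)]
    rw [this, div_mul_eq_mul_div, div_le_iff₀ hr0] at h6
    linarith
  have hcont : Continuous G := AddMonoidHomClass.continuous_of_bound G 1 h3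
  have hreal : ∀ (t : ℝ) (c : ℂ), g (t * c) = t * g c := by
    intro t c
    have := map_real_smul G hcont t c
    simpa [hG] using this
  set w := g Complex.I with hw
  have hw1 : ‖w‖ = 1 := h1 _ (by simp)
  have hval : ∀ c : ℂ, g c = c.re + c.im * w := by
    intro c
    conv_lhs => rw [← Complex.re_add_im c]
    rw [hadd, hreal, ← hw]
    have := hreal c.re 1
    rw [mul_one, hone, mul_one] at this
    rw [this]
  have hre : w.re = 0 := by
    have e1 : ‖(1 / Real.sqrt 2 : ℝ) + (1 / Real.sqrt 2 : ℝ) * Complex.I‖ = 1 := by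
      rw [Complex.norm_add_mul_I]
      have : (1 / Real.sqrt 2) ^ 2 + (1 / Real.sqrt 2) ^ 2 = 1 := by
        rw [div_pow, Real.sq_sqrt (by norm_num)]
        norm_num
      rw [this, Real.sqrt_one]
    have e2 := h1 _ e1
    rw [hval] at e2
    simp only [Complex.add_re, Complex.ofReal_re, Complex.mul_re, Complex.I_re, mul_zero,
      Complex.ofReal_im, Complex.I_im, mul_one, sub_self, add_zero, Complex.add_im,
      Complex.mul_im, zero_add] at e2
    have e3 : ‖((1 / Real.sqrt 2 : ℝ) : ℂ) + ((1 / Real.sqrt 2 : ℝ) : ℂ) * w‖ ^ 2 = 1 := by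
      rw [e2]
      norm_num
    have e4 : ((1 / Real.sqrt 2 : ℝ) : ℂ) + ((1 / Real.sqrt 2 : ℝ) : ℂ) * w =
        ((1 / Real.sqrt 2 : ℝ) : ℂ) * (1 + w) := by ring
    rw [e4, norm_mul, mul_pow, Complex.norm_real, Real.norm_eq_abs, sq_abs, div_pow,
      Real.sq_sqrt (by norm_num), ← Complex.normSq_eq_norm_sq, Complex.normSq_apply] at e3
    simp only [Complex.add_re, Complex.one_re, Complex.add_im, Complex.one_im, zero_add] at e3
    have e5 : w.re * w.re + w.im * w.im = 1 := by
      have := Complex.normSq_apply w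
      rw [Complex.normSq_eq_norm_sq, hw1] at this
      linarith
    nlinarith
  have him : w.im = 1 ∨ w.im = -1 := by
    have e5 : w.re * w.re + w.im * w.im = 1 := by
      have := Complex.normSq_apply w
      rw [Complex.normSq_eq_norm_sq, hw1] at this
      linarith
    rw [hre, mul_zero, zero_add] at e5
    exact mul_self_eq_one_iff.1 e5
  rcases him with him | him
  · left
    intro c
    rw [hval]
    have : w = Complex.I := Complex.ext (by rw [hre, Complex.I_re]) (by rw [him, Complex.I_im])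
    rw [this, Complex.re_add_im]
  · right
    intro c
    rw [hval]
    have : w = -Complex.I := Complex.ext (by rw [hre]; simp) (by rw [him]; simp)
    rw [this]
    apply Complex.ext <;> simp

section

variable {H : Type} [NormedAddCommGroup H] [InnerProductSpace ℂ H] [CompleteSpace H]

private theorem sh_anti {u v : H} (h : Op u v) (c : ℂ) (hc : c ≠ 0) :
    (c • ro v u) * ro u v + ro u v * (c • ro v u) ≠ 0 := by
  intro h0
  have h1 := congrArg (fun T : H →L[ℂ] H => T u) h0
  simp only [smul_mul_assoc, mul_smul_comm, ro_mul_ro, h.inner_xx, h.inner_yy, one_smul,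
    add_apply, smul_apply, ro_apply, h.inner_yx, zero_smul, smul_zero, zero_add,
    zero_apply] at h1
  rcases smul_eq_zero.1 h1 with h2 | h2
  · exact hc h2
  · exact h.ne_left h2

/-- the statement (a): rotation of the first vector -/
private theorem sh_rot {Φ : (H →L[ℂ] H) → H →L[ℂ] H}
    (hanti : ∀ A B : H →L[ℂ] H, A * A = 0 → B * B = 0 → A * B + B * A = 0 →
      Φ A * Φ B + Φ B * Φ A = 0)
    {x y u v u' v' : H} {δ δ' c : ℂ} (hxy : Op x y) (huv : Op u v) (hδ : δ ≠ 0)
    (huv' : Op u' v') (hδ' : δ' ≠ 0) (h1 : Φ (ro x y) = δ • ro u v)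
    (h3 : Φ (ro x x - ro y y) = δ • (ro u u - ro v v))
    (h1' : Φ (c • ro x y) = δ' • ro u' v') (h2' : Φ (conj c • ro y x) = δ' • ro v' u')
    (h3' : Φ (ro x x - ro y y) = δ' • (ro u' u' - ro v' v')) :
    ∃ g : ℂ, ‖g‖ = 1 ∧ Φ (c • ro x y) = (g * δ) • ro u v ∧
      Φ (conj c • ro y x) = (conj g * δ) • ro v u := by
  have hD : δ' • (ro u' u' - ro v' v') = δ • (ro u u - ro v v) := by rw [← h3', h3]
  have hDu := congrArg (fun T : H →L[ℂ] H => T u') hD
  have hDv := congrArg (fun T : H →L[ℂ] H => T v') hD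
  simp only [smul_apply, sub_apply, ro_apply, huv'.inner_xx, huv'.inner_yx, one_smul, zero_smul,
    sub_zero] at hDu
  simp only [smul_apply, sub_apply, ro_apply, huv'.inner_yy, huv'.2.2, one_smul, zero_smul,
    zero_sub] at hDv
  set α := inner ℂ u u' with hα
  set β := inner ℂ v u' with hβ
  set α' := inner ℂ u v' with hα'
  set β' := inner ℂ v v' with hβ'
  have e1 : δ' * α = δ * α := by
    have := congrArg (fun z => inner ℂ u z) hDu
    simp only [inner_smul_right, inner_sub_right, huv.inner_xx, huv.2.2, mul_one, mul_zero,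
      sub_zero] at this
    exact this
  have e2 : δ' * β = -(δ * β) := by
    have := congrArg (fun z => inner ℂ v z) hDu
    simp only [inner_smul_right, inner_sub_right, huv.inner_yy, huv.inner_yx, mul_one, mul_zero,
      zero_sub, mul_neg] at this
    exact this
  have e3 : -(δ' * α') = δ * α' := by
    have := congrArg (fun z => inner ℂ u z) hDv
    simp only [inner_smul_right, inner_sub_right, inner_neg_right, huv.inner_xx, huv.2.2, mul_one,
      mul_zero, sub_zero, mul_neg] at this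
    exact this
  have e4 : δ' * β' = δ * β' := by
    have := congrArg (fun z => inner ℂ v z) hDv
    simp only [inner_smul_right, inner_sub_right, inner_neg_right, huv.inner_yy, huv.inner_yx,
      mul_one, mul_zero, zero_sub, mul_neg, neg_inj] at this
    exact this
  have f1 : u' = (δ'⁻¹ * δ) • (α • u - β • v) := by
    rw [mul_smul, ← hDu, smul_smul, inv_mul_cancel₀ hδ', one_smul]
  have f2 : v' = -((δ'⁻¹ * δ) • (α' • u - β' • v)) := by
    rw [mul_smul, ← hDv, smul_smul, inv_mul_cancel₀ hδ', one_smul, neg_neg]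
  by_cases hα0 : α = 0
  · -- the second case is impossible
    exfalso
    have hβ0 : β ≠ 0 := by
      intro h0
      apply huv'.ne_left
      rw [f1, hα0, h0, zero_smul, zero_smul, sub_zero, smul_zero]
    have hdd : δ' = -δ := by
      apply mul_right_cancel₀ hβ0
      rw [e2]
      ring
    have hβ'0 : β' = 0 := by
      rw [hdd] at e4
      have : (2 * δ) * β' = 0 := by linear_combination -e4
      exact (mul_eq_zero.1 this).resolve_left (mul_ne_zero two_ne_zero hδ)
    have hα'0 : α' ≠ 0 := by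
      intro h0
      apply huv'.ne_right
      rw [f2, hβ'0, h0, zero_smul, zero_smul, sub_zero, smul_zero, neg_zero]
    have hcoef : δ'⁻¹ * δ = -1 := by
      rw [hdd, inv_neg, neg_mul, inv_mul_cancel₀ hδ]
    have g1 : u' = β • v := by
      rw [f1, hcoef, hα0, zero_smul, zero_sub, neg_one_smul, neg_neg]
    have g2 : v' = α' • u := by
      rw [f2, hcoef, hβ'0, zero_smul, sub_zero, neg_one_smul, neg_neg]
    have hs : Φ (c • ro x y) = (δ' * (β * conj α')) • ro v u := by
      rw [h1', g1, g2, ro_smul_left, ro_smul_right, smul_smul, smul_smul]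
      congr 1
      ring
    have sq : ro x y * ro x y = 0 := by rw [ro_mul_ro, hxy.inner_yx, zero_smul]
    have h4 := hanti (c • ro x y) (ro x y)
      (by rw [smul_mul_assoc, mul_smul_comm, sq, smul_zero, smul_zero]) sq
      (by rw [smul_mul_assoc, mul_smul_comm, sq, smul_zero, add_zero])
    rw [hs, h1] at h4
    refine sh_anti huv (δ' * (β * conj α') * δ) ?_ ?_
    · refine mul_ne_zero (mul_ne_zero hδ' (mul_ne_zero hβ0 ?_)) hδ
      rwa [Ne, map_eq_zero]
    · rw [← h4]
      simp only [smul_mul_assoc, mul_smul_comm, smul_smul, mul_comm]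
  · have hdd : δ' = δ := mul_right_cancel₀ hα0 e1
    have hβ0 : β = 0 := by
      rw [hdd] at e2
      have : (2 * δ) * β = 0 := by linear_combination e2
      exact (mul_eq_zero.1 this).resolve_left (mul_ne_zero two_ne_zero hδ)
    have hα'0 : α' = 0 := by
      rw [hdd] at e3
      have : (2 * δ) * α' = 0 := by linear_combination -e3
      exact (mul_eq_zero.1 this).resolve_left (mul_ne_zero two_ne_zero hδ)
    have hcoef : δ'⁻¹ * δ = 1 := by rw [hdd, inv_mul_cancel₀ hδ]
    have g1 : u' = α • u := by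
      rw [f1, hcoef, hβ0, zero_smul, sub_zero, one_smul]
    have g2 : v' = β' • v := by
      rw [f2, hcoef, hα'0, zero_smul, zero_sub, one_smul, neg_neg]
    have n1 : ‖α‖ = 1 := by
      have := huv'.1
      rw [g1, norm_smul, huv.1, mul_one] at this
      exact this
    have n2 : ‖β'‖ = 1 := by
      have := huv'.2.1
      rw [g2, norm_smul, huv.2.1, mul_one] at this
      exact this
    refine ⟨α * conj β', ?_, ?_, ?_⟩
    · rw [norm_mul, RCLike.norm_conj, n1, n2, mul_one]
    · rw [h1', g1, g2, hdd, ro_smul_left, ro_smul_right, smul_smul, smul_smul]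
      congr 1
      ring
    · rw [h2', g1, g2, hdd, ro_smul_left, ro_smul_right, smul_smul, smul_smul, map_mul,
        Complex.conj_conj]
      congr 1
      ring

end

/-- homogeneity on `ro x y` and `ro y x` -/
private theorem sh_half (hSP : T_SP) (hSC : T_SC) (hSB : T_SB) {H : Type} [NormedAddCommGroup H]
    [InnerProductSpace ℂ H] [CompleteSpace H] {L Φ : (H →L[ℂ] H) → H →L[ℂ] H} {m : Bool}
    (hL : Lm L m) (hA : AS L Φ) {x y : H} (hxy : Op x y) : ∃ (u v : H) (δ : ℂ) (h : ℂ → ℂ),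
    Op u v ∧ δ ≠ 0 ∧ IC h ∧ Φ (ro x y) = δ • ro u v ∧ Φ (ro y x) = δ • ro v u ∧
    Φ (ro x x - ro y y) = δ • (ro u u - ro v v) ∧ (∀ c : ℂ, Φ (c • ro x y) = h c • Φ (ro x y)) ∧
    ∀ c : ℂ, Φ (c • ro y x) = h c • Φ (ro y x) := by
  obtain ⟨u, v, δ, huv, hδ, h1, h2, h3⟩ := hSP H L m hL Φ hA x y hxy
  have hanti := (hSC H L Φ hA (hSB H L m hL Φ hA)).1
  have hrot : ∀ c : ℂ, ‖c‖ = 1 → ∃ g : ℂ, ‖g‖ = 1 ∧ Φ (c • ro x y) = (g * δ) • ro u v ∧
      Φ (conj c • ro y x) = (conj g * δ) • ro v u := by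
    intro c hc
    have hcx : Op (c • x) y := by
      refine ⟨by rw [norm_smul, hc, hxy.1, mul_one], hxy.2.1, ?_⟩
      rw [inner_smul_left, hxy.2.2, mul_zero]
    obtain ⟨u', v', δ', huv', hδ', h1', h2', h3'⟩ := hSP H L m hL Φ hA (c • x) y hcx
    have hcc : c * conj c = 1 := by
      rw [Complex.mul_conj, Complex.normSq_eq_norm_sq, hc]
      norm_num
    rw [ro_smul_left] at h1'
    rw [ro_smul_right] at h2'
    rw [ro_smul_left, ro_smul_right, smul_smul, hcc, one_smul] at h3'
    exact sh_rot hanti hxy huv hδ huv' hδ' h1 h3 h1' h2' h3'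
  -- the function `g`
  have hex : ∀ c : ℂ, ∃ g : ℂ, Φ (c • ro x y) = (g * δ) • ro u v := by
    refine sh_ind _ ?_ fun c hc => ?_
    · rintro a b ⟨g, hg⟩ ⟨g', hg'⟩
      refine ⟨g + g', ?_⟩
      rw [add_smul, hA.add, hg, hg', ← add_smul, add_mul]
    · obtain ⟨g, -, hg, -⟩ := hrot c hc
      exact ⟨g, hg⟩
  choose g hg using hex
  have hinj : ∀ a b : ℂ, (a * δ) • ro u v = (b * δ) • ro u v → a = b := by
    intro a b hab
    have h4 : (a * δ - b * δ) • ro u v = 0 := by rw [sub_smul, hab, sub_self]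
    rcases smul_eq_zero.1 h4 with h5 | h5
    · exact mul_right_cancel₀ hδ (sub_eq_zero.1 h5)
    · rw [ro_eq_zero] at h5
      rcases h5 with h5 | h5
      · exact absurd h5 huv.ne_left
      · exact absurd h5 huv.ne_right
  have gadd : ∀ a b, g (a + b) = g a + g b := by
    intro a b
    apply hinj
    rw [← hg, add_smul, hA.add, hg, hg, ← add_smul, add_mul]
  have gone : g 1 = 1 := by
    apply hinj
    rw [← hg, one_smul, h1, one_mul]
  have gnorm : ∀ c, ‖c‖ = 1 → ‖g c‖ = 1 ∧ Φ (conj c • ro y x) = (conj (g c) * δ) • ro v u := by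
    intro c hc
    obtain ⟨g', hg1, hg2, hg3⟩ := hrot c hc
    have : g c = g' := hinj _ _ (by rw [← hg, hg2])
    rw [this]
    exact ⟨hg1, hg3⟩
  have hIC : IC g := sh_add g gadd (fun c hc => (gnorm c hc).1) gone
  refine ⟨u, v, δ, g, huv, hδ, hIC, h1, h2, h3, fun c => ?_, ?_⟩
  · rw [hg, h1, smul_smul]
  · refine sh_ind _ ?_ fun c hc => ?_
    · intro a b ha hb
      rw [add_smul, hA.add, ha, hb, ← add_smul, gadd]
    · have h4 := (gnorm (conj c) (by rw [RCLike.norm_conj, hc])).2
      rw [Complex.conj_conj, hIC.hconj, Complex.conj_conj] at h4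
      rw [h4, h2, smul_smul]

theorem sh_proof (hSP : T_SP) (hSC : T_SC) (hSB : T_SB) : T_SH := by
  intro H _ _ _ L m hL Φ hA x y hxy
  obtain ⟨u, v, δ, h, huv, hδ, hh, h1, h2, h3, h4, h5⟩ := sh_half hSP hSC hSB hL hA hxy
  refine ⟨u, v, δ, h, huv, hδ, hh, ?_⟩
  -- the rotated basis
  set s : ℂ := (((Real.sqrt 2)⁻¹ : ℝ) : ℂ) with hs
  have hss : s * s = 1 / 2 := by
    rw [hs, ← Complex.ofReal_mul, ← mul_inv, Real.mul_self_sqrt (by norm_num)]
    push_cast
    norm_num
  have hsc : conj s = s := by rw [hs, Complex.conj_ofReal]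
  have hn : ∀ z : H, ‖s • z‖ = (Real.sqrt 2)⁻¹ * ‖z‖ := by
    intro z
    rw [norm_smul, hs, Complex.norm_real, Real.norm_eq_abs, abs_of_nonneg (by positivity)]
  have hsum : ‖x + y‖ = Real.sqrt 2 := by
    have h6 := norm_add_sq_eq_norm_sq_add_norm_sq_of_inner_eq_zero x y hxy.2.2
    rw [hxy.1, hxy.2.1] at h6
    rw [← Real.sqrt_mul_self (norm_nonneg (x + y)), h6]
    norm_num
  have hdiff : ‖x - y‖ = Real.sqrt 2 := by
    have h6 := norm_add_sq_eq_norm_sq_add_norm_sq_of_inner_eq_zero (𝕜 := ℂ) x (-y)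
      (by rw [inner_neg_right, hxy.2.2, neg_zero])
    rw [norm_neg, hxy.1, hxy.2.1, ← sub_eq_add_neg] at h6
    rw [← Real.sqrt_mul_self (norm_nonneg (x - y)), h6]
    norm_num
  have hsq2 : (Real.sqrt 2)⁻¹ * Real.sqrt 2 = 1 := inv_mul_cancel₀ (by positivity)
  have hXY : Op (s • (x + y)) (s • (x - y)) := by
    refine ⟨by rw [hn, hsum, hsq2], by rw [hn, hdiff, hsq2], ?_⟩
    rw [inner_smul_left, inner_smul_right, inner_add_left, inner_sub_right, inner_sub_right,
      hxy.inner_xx, hxy.2.2, hxy.inner_yx, hxy.inner_yy]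
    ring
  obtain ⟨u', v', δ', k, huv', hδ', hk, k1, k2, k3, k4, k5⟩ := sh_half hSP hSC hSB hL hA hXY
  have r1 : ro (s • (x + y)) (s • (x - y)) =
      (1 / 2 : ℂ) • ((ro x x - ro y y) - ro x y + ro y x) := by
    rw [ro_smul_left, ro_smul_right, smul_smul, hsc, hss, ro_add_left, ro_sub_right, ro_sub_right]
    congr 1
    abel
  have r2 : ro (s • (x - y)) (s • (x + y)) =
      (1 / 2 : ℂ) • ((ro x x - ro y y) + ro x y - ro y x) := by
    rw [ro_smul_left, ro_smul_right, smul_smul, hsc, hss, ro_sub_left, ro_add_right, ro_add_right]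
    congr 1
    abel
  have hD : ∀ c : ℂ, Φ (c • (ro x x - ro y y)) = k c • Φ (ro x x - ro y y) := by
    intro c
    have e1 : ro x x - ro y y = ro (s • (x + y)) (s • (x - y)) +
        ro (s • (x - y)) (s • (x + y)) := by
      rw [r1, r2]
      module
    have e2 : c • (ro (s • (x + y)) (s • (x - y)) + ro (s • (x - y)) (s • (x + y))) =
        c • ro (s • (x + y)) (s • (x - y)) + c • ro (s • (x - y)) (s • (x + y)) :=
      smul_add _ _ _
    rw [e1, e2, hA.add, k4, k5, hA.add]
    exact (smul_add _ _ _).symm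
  have hkh : ∀ c : ℂ, k c = h c := by
    intro c
    have e1 : (2 : ℂ) • ro (s • (x + y)) (s • (x - y)) =
        (ro x x - ro y y) - ro x y + ro y x := by
      rw [r1, smul_smul]
      norm_num
    have e2 : Φ ((2 * c) • ro (s • (x + y)) (s • (x - y))) =
        k c • (Φ (ro x x - ro y y) - Φ (ro x y) + Φ (ro y x)) := by
      rw [k4, hk.mul]
      have e3 : Φ ((2 : ℂ) • ro (s • (x + y)) (s • (x - y))) =
          k 2 • Φ (ro (s • (x + y)) (s • (x - y))) := k4 2
      rw [mul_comm, mul_smul, ← e3, e1, hA.add, hA.sub]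
    have e4 : Φ ((2 * c) • ro (s • (x + y)) (s • (x - y))) =
        k c • Φ (ro x x - ro y y) - h c • Φ (ro x y) + h c • Φ (ro y x) := by
      rw [mul_comm, mul_smul, e1, smul_add, smul_sub, hA.add, hA.sub, hD, h4, h5]
    have e5 : (k c - h c) • (Φ (ro y x) - Φ (ro x y)) = 0 := by
      rw [e2] at e4
      have : k c • (Φ (ro x x - ro y y) - Φ (ro x y) + Φ (ro y x)) -
          (k c • Φ (ro x x - ro y y) - h c • Φ (ro x y) + h c • Φ (ro y x)) = 0 := by
        rw [e4, sub_self]
      rw [← this]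
      module
    rcases smul_eq_zero.1 e5 with e6 | e6
    · exact sub_eq_zero.1 e6
    · exfalso
      have e7 := hA.bij.1 (sub_eq_zero.1 e6)
      have e8 := congrArg (fun T : H →L[ℂ] H => T x) e7
      simp only [ro_apply, hxy.inner_xx, hxy.inner_yx, one_smul, zero_smul] at e8
      exact hxy.ne_right e8
  refine PD.of hh hA.add (fun a => ?_) (fun a => ?_) fun a => ?_
  · rw [h4, h1, smul_smul, mul_comm]
  · rw [h5, h2, smul_smul, mul_comm]
  · rw [hD, hkh, h3, smul_smul, mul_comm]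

end Pool.Agent.H79.MT5
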