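import Pool.Agent.H79.MT.Api5

/-!
# MP_c80a4f_an: module 5L (finite dimension, the identity)
-/

open Pool.Agent.H48.MT InnerProductSpace Filter Topology
open scoped ComplexConjugate

namespace Pool.Agent.H79.MT5

theorem sl_proof (hSF : T_SF) (hTR : T_TR) : T_SL := by
  intro H _ _ _ L m hL Φ hA hfin hTwo hro hsc
  obtain ⟨x, y, hx, hy, hxy0⟩ := hTwo
  have hxy : Op x y := ⟨hx, hy, hxy0⟩
  have hFR : ∀ X : H →L[ℂ] H, FR X := fun X => by
    unfold FR
    infer_instance
  obtain ⟨tr, htr⟩ := (hTR H).1
  let S : AddSubgroup (H →L[ℂ] H) :=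
    { carrier := {A | Φ A = A}
      add_mem' := fun {A B} hA' hB' => by
        change Φ (A + B) = A + B
        rw [hA.add]
        have h1 : Φ A = A := hA'
        have h2 : Φ B = B := hB'
        rw [h1, h2]
      zero_mem' := hA.zero
      neg_mem' := fun {A} hA' => by
        change Φ (-A) = -A
        rw [hA.neg]
        have h1 : Φ A = A := hA'
        rw [h1] }
  have hS : ∀ A, A ∈ S ↔ Φ A = A := fun _ => Iff.rfl
  have hSF' := hSF H S (fun x y hxy => (hS _).2 (hro x y hxy))
  let b := stdOrthonormalBasis ℂ H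
  have hdec : ∀ X : H →L[ℂ] H, X = ∑ i, ro (X (b i)) (b i) := by
    intro X
    ext z
    rw [sum_apply]
    simp only [ro_apply]
    conv_lhs => rw [← b.sum_repr' z]
    rw [map_sum]
    exact Finset.sum_congr rfl fun i _ => by rw [map_smul]
  have htr0 : tr 0 = 0 := by
    have := htr.smul 0 0 (hFR 0)
    simpa using this
  have htrsum : ∀ (s : Finset (Fin (Module.finrank ℂ H))) (F : Fin (Module.finrank ℂ H) → H →L[ℂ] H),
      tr (∑ i ∈ s, F i) = ∑ i ∈ s, tr (F i) := by
    intro s F
    classical
    induction s using Finset.induction_on with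
    | empty => rw [Finset.sum_empty, Finset.sum_empty, htr0]
    | insert i s hi ih =>
      rw [Finset.sum_insert hi, Finset.sum_insert hi, htr.add _ _ (hFR _) (hFR _), ih]
  have htrX : ∀ X : H →L[ℂ] H, tr X = ∑ i, inner ℂ (b i) (X (b i)) := by
    intro X
    conv_lhs => rw [hdec X]
    rw [htrsum]
    exact Finset.sum_congr rfl fun i _ => htr.rk _ _
  -- trace zero operators
  have hzero : ∀ X : H →L[ℂ] H, tr X = 0 → Φ X = X := by
    intro X hX
    rw [htrX] at hX
    have h1 : X = ∑ i, (ro (X (b i)) (b i) - ro (inner ℂ (b i) (X (b i)) • x) x) := by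
      rw [Finset.sum_sub_distrib, ← hdec X]
      simp only [ro_smul_left]
      rw [← Finset.sum_smul, hX, zero_smul, sub_zero]
    rw [← hS, h1]
    refine AddSubgroup.sum_mem _ fun i _ => hSF' _ _ _ _ ?_
    rw [inner_smul_right, inner_self_one hx, mul_one]
  have hneg : tr (-(1 : H →L[ℂ] H)) = -tr 1 := by
    have := htr.smul (-1) 1 (hFR _)
    rwa [neg_one_smul, neg_one_mul] at this
  have htrneg : ∀ X : H →L[ℂ] H, tr (-X) = -tr X := by
    intro X
    have := htr.smul (-1) X (hFR _)
    rwa [neg_one_smul, neg_one_mul] at this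
  have htrsub : ∀ X Y : H →L[ℂ] H, tr (X - Y) = tr X - tr Y := by
    intro X Y
    rw [sub_eq_add_neg, htr.add _ _ (hFR _) (hFR _), htrneg, ← sub_eq_add_neg]
  -- scalars
  have hscal : ∀ c : ℂ, Φ (c • 1) = c • 1 := by
    intro c
    by_cases hc : c = 0
    · rw [hc, zero_smul, hA.zero]
    · obtain ⟨d, hd⟩ := hsc c
      have h1ne : (1 : H →L[ℂ] H) ≠ 0 := by
        intro h0
        have := congrArg (fun T : H →L[ℂ] H => T x) h0
        exact hxy.ne_left this
      have hd0 : d ≠ 0 := by
        rintro rfl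
        rw [zero_smul, hA.eq_zero] at hd
        rcases smul_eq_zero.1 hd with h2 | h2
        · exact hc h2
        · exact h1ne h2
      set T : H →L[ℂ] H := ro x y with hT
      have hΦT : Φ T = T := hro x y hxy.inner_yx
      have key : ∀ n : ℕ, L ((n : ℂ) • d • 1 + T) - (n : ℂ) • d • 1 - T =
          L ((n : ℂ) • c • 1 + T) - (n : ℂ) • c • 1 - T := by
        intro n
        set R := L ((n : ℂ) • c • 1 + T) - (n : ℂ) • c • 1 - T with hR
        have hR0 : tr R = 0 := by
          rw [hR, htrsub, htrsub, (hL.trc tr htr _ (hFR _)).2, htr.add _ _ (hFR _) (hFR _)]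
          ring
        have hΦR : Φ R = R := hzero R hR0
        have h2 : Φ ((n : ℂ) • c • (1 : H →L[ℂ] H)) = (n : ℂ) • d • 1 := by
          rw [hA.natCast_smul, hd]
        have h3 : L ((n : ℂ) • c • 1 + T) = (n : ℂ) • c • 1 + T + R := by
          rw [hR]
          abel
        have h4 : L ((n : ℂ) • d • 1 + T) = (n : ℂ) • d • 1 + T + R := by
          have h5 : (n : ℂ) • d • (1 : H →L[ℂ] H) + T = Φ ((n : ℂ) • c • 1 + T) := by
            rw [hA.add, h2, hΦT]
          rw [h5, hA.com, h3, hA.add, hA.add, h2, hΦT, hΦR]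
        rw [h4]
        abel
      obtain ⟨k, hk, has⟩ := hL.as2
      have l1 := has c T hc
      have l2 := has d T hd0
      have l3 : Tendsto (fun n : ℕ => (n : ℂ) • (L ((n : ℂ) • d • 1 + T) - (n : ℂ) • d • 1 - T))
          atTop (𝓝 ((k / conj c) • (star T * T - T * star T))) :=
        l1.congr fun n => by rw [key n]
      have h2 := tendsto_nhds_unique l2 l3
      have h3 : star T * T - T * star T = ro y y - ro x x := by
        rw [hT, star_ro, ro_mul_ro, ro_mul_ro, inner_self_one hx, inner_self_one hy, one_smul,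
          one_smul]
      have h4 := congrArg (fun F : H →L[ℂ] H => F x) h2
      simp only [h3, smul_apply, sub_apply, ro_apply, hxy.inner_xx, hxy.inner_yx, zero_smul,
        one_smul, zero_sub] at h4
      have h5 : (k / conj d - k / conj c) • x = 0 := by
        have h6 : (k / conj d) • x = (k / conj c) • x := by
          have := congrArg (fun z => -z) h4
          simpa only [smul_neg, neg_neg] using this
        rw [sub_smul, h6, sub_self]
      have h6 : k / conj d = k / conj c :=
        sub_eq_zero.1 ((smul_eq_zero.1 h5).resolve_right hxy.ne_left)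
      have hc' : conj c ≠ 0 := by rwa [Ne, map_eq_zero]
      have hd' : conj d ≠ 0 := by rwa [Ne, map_eq_zero]
      rw [div_eq_div_iff hd' hc'] at h6
      have h7 : conj c = conj d := mul_left_cancel₀ hk h6
      have h8 : c = d := by
        have := congrArg conj h7
        rwa [Complex.conj_conj, Complex.conj_conj] at this
      rw [hd, h8]
  -- all operators
  intro T
  have htr1 : tr 1 ≠ 0 := by
    rw [htrX]
    have : ∀ i, inner ℂ (b i) ((1 : H →L[ℂ] H) (b i)) = (1 : ℂ) := fun i =>
      inner_self_one (b.orthonormal.1 i)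
    simp only [this, Finset.sum_const, Finset.card_univ, Fintype.card_fin, nsmul_eq_mul, mul_one]
    have hnt : Nontrivial H := ⟨⟨x, 0, hxy.ne_left⟩⟩
    exact_mod_cast (Module.finrank_pos (R := ℂ) (M := H)).ne'
  have h1 : tr (T - (tr T / tr 1) • 1) = 0 := by
    rw [htrsub, htr.smul _ _ (hFR _), div_mul_cancel₀ _ htr1, sub_self]
  have h2 := hzero _ h1
  rw [hA.sub, hscal, sub_left_inj] at h2
  exact h2

end Pool.Agent.H79.MT5
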