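import Pool.Agent.H79.MT.Api5

/-!
# MP_c80a4f_an: module 5V (the semilinear map attached to a unit vector)
-/

open Pool.Agent.H48.MT InnerProductSpace Filter Topology
open scoped ComplexConjugate

namespace Pool.Agent.H79.MT5

theorem sv_proof (hST : T_ST) : T_SV := by
  intro H _ _ _ L m hL Φ hA h δ hh hδ hP e he hex
  obtain ⟨x0, hx0⟩ := hex
  obtain ⟨u0, v0, hu0, hp0⟩ := hP x0 e hx0
  have hP' : ∀ x y : H, Op x y → ∃ (u v : H) (δ : ℂ), Op u v ∧ δ ≠ 0 ∧ PD Φ h δ x y u v :=
    fun x y hxy => by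
      obtain ⟨u, v, h1, h2⟩ := hP x y hxy
      exact ⟨u, v, δ, h1, hδ, h2⟩
  have key : ∀ x, Op x e → ∃ u, Op u v0 ∧ PD Φ h δ x e u v0 := by
    intro x hx
    obtain ⟨u, v, huv, hp⟩ := hP x e hx
    have hw : ∃ w, Φ (ro x e) = δ • ro w v0 := by
      set a := inner ℂ x0 x with ha
      set r := x - a • x0 with hr
      have hr0 : inner ℂ x0 r = 0 := by
        rw [hr, inner_sub_right, inner_smul_right, hx0.inner_xx, mul_one, ← ha, sub_self]
      have hre : inner ℂ r e = 0 := by
        rw [hr, inner_sub_left, inner_smul_left, hx.2.2, hx0.2.2, mul_zero, sub_self]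
      have hxr : x = a • x0 + r := by rw [hr]; abel
      by_cases hr1 : r = 0
      · refine ⟨h a • u0, ?_⟩
        rw [hxr, hr1, add_zero, ro_smul_left, hp0.xy hh a, ro_smul_left, smul_smul]
      · have hn : (‖r‖ : ℂ) ≠ 0 := by
          rw [Ne, Complex.ofReal_eq_zero, norm_eq_zero]
          exact hr1
        set y := (‖r‖ : ℂ)⁻¹ • r with hy
        have hy1 : ‖y‖ = 1 := by
          rw [hy, norm_smul, norm_inv, Complex.norm_real, norm_norm,
            inv_mul_cancel₀ (norm_ne_zero_iff.2 hr1)]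
        have hry : r = (‖r‖ : ℂ) • y := by
          rw [hy, smul_smul, mul_inv_cancel₀ hn, one_smul]
        have hye : Op y e := ⟨hy1, he, by rw [hy, inner_smul_left, hre, mul_zero]⟩
        have hx0y : Op x0 y := ⟨hx0.1, hy1, by rw [hy, inner_smul_right, hr0, mul_zero]⟩
        obtain ⟨u1, v1, hu1, hp1⟩ := hP y e hye
        obtain ⟨-, -, c, hc, hv⟩ := hST H L m hL Φ hA h hh hP' x0 y e u0 v0 u1 v1 δ δ hx0y hx0 hye
          hu0 hu1 hδ hδ hp0 hp1
        refine ⟨h a • u0 + (h ‖r‖ * conj c) • u1, ?_⟩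
        nth_rewrite 1 [hxr, hry]
        rw [ro_add_left, ro_smul_left, ro_smul_left, hA.add, hp0.xy hh a, hp1.xy hh, hv,
          ro_smul_right, ro_add_left, ro_smul_left, ro_smul_left]
        module
    obtain ⟨w, hw⟩ := hw
    have h1 : ro u v = ro w v0 := by
      have h2 := hp.xy1 hh
      rw [hw] at h2
      exact (smul_right_injective _ hδ h2).symm
    have h3 : v = inner ℂ w u • v0 := by
      have h4 := congrArg (fun T : H →L[ℂ] H => star T u) h1
      simp only [star_ro, ro_apply] at h4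
      rwa [huv.inner_xx, one_smul] at h4
    set c := inner ℂ w u with hc
    have hc1 : ‖c‖ = 1 := by
      have h4 := huv.2.1
      rw [h3, norm_smul, hu0.2.1, mul_one] at h4
      exact h4
    have hcc : ‖conj c‖ = 1 := by rw [RCLike.norm_conj, hc1]
    have hcm : conj c * c = 1 := by
      rw [mul_comm, Complex.mul_conj, Complex.normSq_eq_norm_sq, hc1]
      norm_num
    have h5 := hp.phase hcc
    rw [h3, smul_smul, hcm, one_smul] at h5
    refine ⟨conj c • u, ⟨?_, hu0.2.1, ?_⟩, h5⟩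
    · rw [norm_smul, hcc, huv.1, mul_one]
    · have h6 := huv.2.2
      rw [h3, inner_smul_right] at h6
      have hc0 : c ≠ 0 := by
        intro h0
        rw [h0, norm_zero] at hc1
        exact zero_ne_one hc1
      rw [inner_smul_left, (mul_eq_zero.1 h6).resolve_left hc0, mul_zero]
  -- vectors orthogonal to `e`
  have key2 : ∀ r, inner ℂ e r = 0 → ∃ w, inner ℂ v0 w = 0 ∧ ‖w‖ = ‖r‖ ∧
      ∀ c : ℂ, Φ (c • ro r e) = (δ * h c) • ro w v0 := by
    intro r hr
    by_cases hr1 : r = 0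
    · refine ⟨0, inner_zero_right _, by rw [hr1], fun c => ?_⟩
      rw [hr1, ro_zero_left, smul_zero, hA.zero, ro_zero_left, smul_zero]
    · have hn : (‖r‖ : ℂ) ≠ 0 := by
        rw [Ne, Complex.ofReal_eq_zero, norm_eq_zero]
        exact hr1
      set y := (‖r‖ : ℂ)⁻¹ • r with hy
      have hy1 : ‖y‖ = 1 := by
        rw [hy, norm_smul, norm_inv, Complex.norm_real, norm_norm,
          inv_mul_cancel₀ (norm_ne_zero_iff.2 hr1)]
      have hry : r = (‖r‖ : ℂ) • y := by
        rw [hy, smul_smul, mul_inv_cancel₀ hn, one_smul]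
      have hye : Op y e := by
        have : Op e y := ⟨he, hy1, by rw [hy, inner_smul_right, hr, mul_zero]⟩
        exact this.symm
      obtain ⟨u, hu, hp⟩ := key y hye
      refine ⟨(‖r‖ : ℂ) • u, ?_, ?_, fun c => ?_⟩
      · rw [inner_smul_right, hu.inner_yx, mul_zero]
      · rw [norm_smul, hu.1, mul_one, Complex.norm_real, norm_norm]
      · nth_rewrite 1 [hry]
        rw [ro_smul_left, smul_smul, hp.xy hh, hh.mul, hh.ofReal, ro_smul_left, smul_smul]
        congr 1
        ring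
  set U : H → H := fun z => h (inner ℂ e z) • v0 + δ⁻¹ • Φ (ro (z - inner ℂ e z • e) e) v0 with hU
  have hee : inner ℂ e e = (1 : ℂ) := inner_self_one he
  have hvv : inner ℂ v0 v0 = (1 : ℂ) := hu0.inner_yy
  have horth : ∀ z : H, inner ℂ e (z - inner ℂ e z • e) = 0 := by
    intro z
    rw [inner_sub_right, inner_smul_right, hee, mul_one, sub_self]
  -- the value of `U`
  have hval : ∀ z : H, ∃ w, inner ℂ v0 w = 0 ∧ ‖w‖ = ‖z - inner ℂ e z • e‖ ∧
      (∀ c : ℂ, Φ (c • ro (z - inner ℂ e z • e) e) = (δ * h c) • ro w v0) ∧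
      U z = h (inner ℂ e z) • v0 + w := by
    intro z
    obtain ⟨w, h1, h2, h3⟩ := key2 _ (horth z)
    refine ⟨w, h1, h2, h3, ?_⟩
    have h4 := h3 1
    rw [one_smul, hh.one, mul_one] at h4
    rw [hU]
    simp only
    rw [h4, smul_apply, ro_apply, hvv, one_smul, smul_smul, inv_mul_cancel₀ hδ, one_smul]
  have hadd : ∀ x y, U (x + y) = U x + U y := by
    intro x y
    rw [hU]
    simp only
    have h1 : x + y - inner ℂ e (x + y) • e = (x - inner ℂ e x • e) + (y - inner ℂ e y • e) := by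
      rw [inner_add_right, add_smul]
      abel
    rw [h1, ro_add_left, hA.add, inner_add_right, hh.add, add_smul, add_apply, smul_add]
    abel
  have hsm : ∀ (c : ℂ) x, U (c • x) = h c • U x := by
    intro c x
    obtain ⟨w, h1, h2, h3, h4⟩ := hval x
    have h5 : c • x - inner ℂ e (c • x) • e = c • (x - inner ℂ e x • e) := by
      rw [inner_smul_right, smul_sub, smul_smul]
    have h6 : U (c • x) = h (inner ℂ e (c • x)) • v0 +
        δ⁻¹ • Φ (ro (c • x - inner ℂ e (c • x) • e) e) v0 := rfl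
    rw [h6, h5, ro_smul_left, h3, inner_smul_right, hh.mul, h4, smul_apply, ro_apply, hvv,
      one_smul, smul_smul, ← mul_assoc, inv_mul_cancel₀ hδ, one_mul, smul_add, smul_smul]
  have hnorm : ∀ x, ‖U x‖ = ‖x‖ := by
    intro x
    obtain ⟨w, h1, h2, h3, h4⟩ := hval x
    have e1 : ‖U x‖ ^ 2 = ‖inner ℂ e x‖ ^ 2 + ‖x - inner ℂ e x • e‖ ^ 2 := by
      rw [h4, ← h2]
      have h5 : inner ℂ (h (inner ℂ e x) • v0) w = 0 := by
        rw [inner_smul_left, h1, mul_zero]
      have h6 := norm_add_sq_eq_norm_sq_add_norm_sq_of_inner_eq_zero _ _ h5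
      rw [norm_smul, hu0.2.1, mul_one, hh.norm] at h6
      rw [pow_two, pow_two, pow_two]
      exact h6
    have e2 : ‖x‖ ^ 2 = ‖inner ℂ e x‖ ^ 2 + ‖x - inner ℂ e x • e‖ ^ 2 := by
      have h5 : inner ℂ (inner ℂ e x • e) (x - inner ℂ e x • e) = 0 := by
        rw [inner_smul_left, horth, mul_zero]
      have h6 := norm_add_sq_eq_norm_sq_add_norm_sq_of_inner_eq_zero _ _ h5
      rw [add_sub_cancel, norm_smul, he, mul_one] at h6
      rw [pow_two, pow_two, pow_two]
      exact h6
    have e3 : ‖U x‖ ^ 2 = ‖x‖ ^ 2 := by rw [e1, e2]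
    exact (sq_eq_sq₀ (norm_nonneg _) (norm_nonneg _)).1 e3
  refine ⟨v0, U, hu0.2.1, ?_, hadd, hsm, hnorm, fun x hx => ?_⟩
  · rw [hU]
    simp only
    rw [hee, one_smul, sub_self, ro_zero_left, hA.zero, hh.one, one_smul]
    simp
  · obtain ⟨u, hu, hp⟩ := key x hx
    have h1 : U x = u := by
      rw [hU]
      simp only
      rw [hx.inner_yx, hh.zero, zero_smul, zero_smul, sub_zero, zero_add, hp.xy1 hh, smul_apply,
        ro_apply, hvv, one_smul, smul_smul, inv_mul_cancel₀ hδ, one_smul]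
    rw [h1]
    exact hp

end Pool.Agent.H79.MT5
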